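import Pool.Agent.Lib.MP_02a407_al.Defs

/-!
# GL_infinity over a field, reflection length, additive factorizations
-/

namespace Pool.Agent.Lib.MP_02a407_al

open Module

variable {K : Type} [Field K]

lemma mem_GLInf {g : V K ≃ₗ[K] V K} : g ∈ GLInf K ↔ ∃ n, AtLevel n g := Iff.rfl

section General

variable {U : Type} [AddCommGroup U] [Module K U]

/-- `g - 1` as an endomorphism. -/
def D (g : U ≃ₗ[K] U) : U →ₗ[K] U := g.toLinearMap - LinearMap.id

@[simp] lemma D_apply (g : U ≃ₗ[K] U) (v : U) : D g v = g v - v := rfl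

lemma D_mul_apply (c d : U ≃ₗ[K] U) (v : U) : D (c * d) v = D c (d v) + D d v := by
  simp [D_apply, LinearEquiv.mul_apply]

lemma range_D_mul_le (c d : U ≃ₗ[K] U) :
    LinearMap.range (D (c * d)) ≤ LinearMap.range (D c) ⊔ LinearMap.range (D d) := by
  rintro _ ⟨v, rfl⟩
  rw [D_mul_apply]
  exact Submodule.add_mem_sup ⟨_, rfl⟩ ⟨_, rfl⟩

lemma finrank_D_mul_le (c d : U ≃ₗ[K] U) [FiniteDimensional K (LinearMap.range (D c))]
    [FiniteDimensional K (LinearMap.range (D d))] :
    finrank K (LinearMap.range (D (c * d))) ≤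
      finrank K (LinearMap.range (D c)) + finrank K (LinearMap.range (D d)) := by
  refine (Submodule.finrank_mono (range_D_mul_le c d)).trans ?_
  exact Submodule.finrank_add_le_finrank_add_finrank _ _

lemma additive_range {c d : U ≃ₗ[K] U} [FiniteDimensional K (LinearMap.range (D c))]
    [FiniteDimensional K (LinearMap.range (D d))]
    (h : finrank K (LinearMap.range (D c)) + finrank K (LinearMap.range (D d)) =
      finrank K (LinearMap.range (D (c * d)))) :
    LinearMap.range (D (c * d)) = LinearMap.range (D c) ⊔ LinearMap.range (D d) ∧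
      Disjoint (LinearMap.range (D c)) (LinearMap.range (D d)) := by
  have h1 := Submodule.finrank_mono (range_D_mul_le c d)
  have h2 := Submodule.finrank_sup_add_finrank_inf_eq (LinearMap.range (D c))
    (LinearMap.range (D d))
  constructor
  · exact Submodule.eq_of_le_of_finrank_le (range_D_mul_le c d) (by omega)
  · rw [disjoint_iff, ← Submodule.finrank_eq_zero (R := K)]
    omega

lemma additive_fixed {c d : U ≃ₗ[K] U}
    (h : Disjoint (LinearMap.range (D c)) (LinearMap.range (D d))) {v : U}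
    (hv : (c * d) v = v) : d v = v ∧ c v = v := by
  have h0 : D c (d v) + D d v = 0 := by
    rw [← D_mul_apply, D_apply, hv, sub_self]
  have h1 : D d v = 0 := by
    have hm : D d v ∈ LinearMap.range (D c) := by
      have : D d v = D c (-(d v)) := by
        rw [map_neg]; exact (neg_eq_of_add_eq_zero_right h0).symm
      rw [this]; exact ⟨_, rfl⟩
    have := (Submodule.disjoint_def.1 h) _ hm ⟨v, rfl⟩
    exact this
  have h2 : d v = v := by
    have := h1; rw [D_apply, sub_eq_zero] at this; exact this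
  refine ⟨h2, ?_⟩
  have h3 : D c (d v) = 0 := by rw [h1, add_zero] at h0; exact h0
  rw [h2, D_apply, sub_eq_zero] at h3
  exact h3

lemma D_conj_apply (h g : U ≃ₗ[K] U) (v : U) : D (h * g * h⁻¹) (h v) = h (D g v) := by
  have : h⁻¹ (h v) = v := h.symm_apply_apply v
  simp only [D_apply, LinearEquiv.mul_apply, this, map_sub]

lemma range_D_conj (h g : U ≃ₗ[K] U) :
    LinearMap.range (D (h * g * h⁻¹)) = (LinearMap.range (D g)).map h.toLinearMap := by
  apply le_antisymm
  · rintro _ ⟨v, rfl⟩
    obtain ⟨w, rfl⟩ := h.surjective v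
    rw [D_conj_apply]
    exact ⟨_, ⟨w, rfl⟩, rfl⟩
  · rintro _ ⟨_, ⟨w, rfl⟩, rfl⟩
    exact ⟨h w, D_conj_apply h g w⟩

lemma finrank_D_conj (h g : U ≃ₗ[K] U) :
    finrank K (LinearMap.range (D (h * g * h⁻¹))) = finrank K (LinearMap.range (D g)) := by
  rw [range_D_conj]
  exact LinearEquiv.finrank_map_eq h _

end General

section Level

/-- vectors supported on the first `n` coordinates -/
def Vn (K : Type) [Field K] (n : ℕ) : Submodule K (V K) where
  carrier := {v | ∀ i, n ≤ i → v i = 0}
  add_mem' := by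
    intro a b ha hb i hi
    rw [Finsupp.add_apply, ha i hi, hb i hi, add_zero]
  zero_mem' := fun i _ => rfl
  smul_mem' := by
    intro c a ha i hi
    rw [Finsupp.smul_apply, ha i hi, smul_zero]

lemma mem_Vn {n : ℕ} {v : V K} : v ∈ Vn K n ↔ ∀ i, n ≤ i → v i = 0 := Iff.rfl

instance finiteDimensional_Vn (n : ℕ) : FiniteDimensional K (Vn K n) := by
  let f : Vn K n →ₗ[K] (Fin n → K) :=
    { toFun := fun v i => (v : V K) i
      map_add' := fun a b => rfl
      map_smul' := fun c a => rfl }
  refine FiniteDimensional.of_injective f ?_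
  intro a b hab
  apply Subtype.ext
  ext i
  rcases lt_or_ge i n with hi | hi
  · exact congrFun hab ⟨i, hi⟩
  · rw [a.2 i hi, b.2 i hi]

lemma AtLevel.range_le {n : ℕ} {g : V K ≃ₗ[K] V K} (hg : AtLevel n g) :
    LinearMap.range (D g) ≤ Vn K n := by
  rintro _ ⟨v, rfl⟩ i hi
  rw [D_apply, Finsupp.sub_apply, (hg i hi).2, sub_self]

lemma AtLevel.finiteDimensional {n : ℕ} {g : V K ≃ₗ[K] V K} (hg : AtLevel n g) :
    FiniteDimensional K (LinearMap.range (D g)) :=
  Submodule.finiteDimensional_of_le hg.range_le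

instance finiteDimensional_range (g : GLInf K) :
    FiniteDimensional K (LinearMap.range (D (g : V K ≃ₗ[K] V K))) := by
  obtain ⟨n, hn⟩ := g.2
  exact AtLevel.finiteDimensional hn

/-- The reflection length `ℓ(g) = rank (g - 1)`. -/
noncomputable def len (g : GLInf K) : ℕ :=
  finrank K (LinearMap.range ((g : V K ≃ₗ[K] V K).toLinearMap - LinearMap.id))

lemma len_eq (g : GLInf K) : len g = finrank K (LinearMap.range (D (g : V K ≃ₗ[K] V K))) := rfl

lemma len_mul_le (c d : GLInf K) : len (c * d) ≤ len c + len d :=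
  finrank_D_mul_le (c : V K ≃ₗ[K] V K) (d : V K ≃ₗ[K] V K)

lemma len_conj (h g : GLInf K) : len (h * g * h⁻¹) = len g :=
  finrank_D_conj (h : V K ≃ₗ[K] V K) (g : V K ≃ₗ[K] V K)

lemma len_eq_of_isConj {g h : GLInf K} (H : IsConj g h) : len g = len h := by
  obtain ⟨c, hc⟩ := isConj_iff.1 H
  rw [← hc, len_conj]

lemma len_one : len (1 : GLInf K) = 0 := by
  rw [len_eq]
  have : D ((1 : GLInf K) : V K ≃ₗ[K] V K) = 0 := by
    ext v i
    simp [D_apply]
  rw [this, LinearMap.range_zero, finrank_bot]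

lemma level_of_additive {n : ℕ} {c d : GLInf K} (he : AtLevel n ((c * d : GLInf K) : V K ≃ₗ[K] V K))
    (h : len c + len d = len (c * d)) :
    AtLevel n (c : V K ≃ₗ[K] V K) ∧ AtLevel n (d : V K ≃ₗ[K] V K) := by
  obtain ⟨h1, h2⟩ := additive_range (c := (c : V K ≃ₗ[K] V K)) (d := (d : V K ≃ₗ[K] V K)) h
  have hle : LinearMap.range (D ((c : V K ≃ₗ[K] V K) * (d : V K ≃ₗ[K] V K))) ≤ Vn K n :=
    AtLevel.range_le he
  rw [h1] at hle
  have hc := le_sup_left.trans hle
  have hd := le_sup_right.trans hle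
  have key : ∀ i, n ≤ i → (d : V K ≃ₗ[K] V K) (Finsupp.single i 1) = Finsupp.single i 1 ∧
      (c : V K ≃ₗ[K] V K) (Finsupp.single i 1) = Finsupp.single i 1 := fun i hi =>
    additive_fixed h2 (he i hi).1
  constructor
  · intro i hi
    refine ⟨(key i hi).2, fun v => ?_⟩
    have := hc ⟨v, rfl⟩ i hi
    rw [D_apply, Finsupp.sub_apply, sub_eq_zero] at this
    exact this
  · intro i hi
    refine ⟨(key i hi).1, fun v => ?_⟩
    have := hd ⟨v, rfl⟩ i hi
    rw [D_apply, Finsupp.sub_apply, sub_eq_zero] at this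
    exact this

lemma finite_level [Finite K] (n : ℕ) : {g : V K ≃ₗ[K] V K | AtLevel n g}.Finite := by
  let F : {g : V K ≃ₗ[K] V K | AtLevel n g} → (Fin n → Fin n → K) :=
    fun g i j => g.1 (Finsupp.single (j : ℕ) 1) i
  have hF : Function.Injective F := by
    intro a b hab
    apply Subtype.ext
    apply LinearEquiv.toLinearMap_injective
    apply Finsupp.lhom_ext
    intro j x
    have hx : (Finsupp.single j x : V K) = x • Finsupp.single j 1 := by
      rw [Finsupp.smul_single, smul_eq_mul, mul_one]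
    rw [hx, map_smul, map_smul]
    congr 1
    change a.1 (Finsupp.single j 1) = b.1 (Finsupp.single j 1)
    rcases lt_or_ge j n with hj | hj
    · ext i
      rcases lt_or_ge i n with hi | hi
      · exact congrFun (congrFun hab ⟨i, hi⟩) ⟨j, hj⟩
      · rw [(a.2 i hi).2, (b.2 i hi).2]
    · rw [(a.2 j hj).1, (b.2 j hj).1]
  have := Finite.of_injective F hF
  exact Set.toFinite _

/-- The set of additive factorizations of `e`. -/
def Fact (e : GLInf K) : Set (GLInf K × GLInf K) :=
  {p | p.1 * p.2 = e ∧ len p.1 + len p.2 = len e}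

lemma finite_Fact [Finite K] (e : GLInf K) : (Fact e).Finite := by
  obtain ⟨n, hn⟩ := mem_GLInf.1 e.2
  have hfin : {g : GLInf K | AtLevel n (g : V K ≃ₗ[K] V K)}.Finite := by
    apply Set.Finite.of_finite_image (f := fun g : GLInf K => (g : V K ≃ₗ[K] V K))
    · apply (finite_level (K := K) n).subset
      rintro _ ⟨g, hg, rfl⟩
      exact hg
    · exact Subtype.val_injective.injOn
  apply (hfin.prod hfin).subset
  rintro ⟨c, d⟩ ⟨h1, h2⟩
  simp only at h1 h2
  subst h1
  obtain ⟨hc, hd⟩ := level_of_additive hn h2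
  exact ⟨hc, hd⟩

end Level

end Pool.Agent.Lib.MP_02a407_al
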