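import Pool.Agent.Lib.MP_02a407_al.Q2.NumB

/-!
# Conjugacy classes of GL_infinity and types
-/

namespace Pool.Agent.Lib.MP_02a407_al

open Module

variable {K : Type} [Field K]

/-- Put `f : Fin n → K` at the coordinates `k, ..., k + n - 1`. -/
noncomputable def toV (k n : ℕ) : (Fin n → K) →ₗ[K] V K :=
  ∑ i : Fin n, (Finsupp.lsingle (k + (i : ℕ))) ∘ₗ LinearMap.proj i

/-- Coordinates `k, ..., k + n - 1`. -/
def pr (k n : ℕ) : V K →ₗ[K] (Fin n → K) where
  toFun v i := v (k + i)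
  map_add' _ _ := rfl
  map_smul' _ _ := rfl

@[simp] lemma pr_apply (k n : ℕ) (v : V K) (i : Fin n) : pr k n v i = v (k + i) := rfl

lemma toV_apply (k n : ℕ) (f : Fin n → K) :
    toV k n f = ∑ i : Fin n, Finsupp.single (k + (i : ℕ)) (f i) := by
  simp [toV]

lemma toV_apply_add (k n : ℕ) (f : Fin n → K) (i : Fin n) : toV k n f (k + i) = f i := by
  rw [toV_apply, Finsupp.finsetSum_apply, Finset.sum_eq_single i]
  · simp
  · intro j _ hj
    rw [Finsupp.single_apply, if_neg]
    intro h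
    exact hj (Fin.ext (by omega))
  · intro h; exact absurd (Finset.mem_univ _) h

lemma toV_apply_eq_zero (k n : ℕ) (f : Fin n → K) (j : ℕ) (hj : j < k ∨ k + n ≤ j) :
    toV k n f j = 0 := by
  rw [toV_apply, Finsupp.finsetSum_apply, Finset.sum_eq_zero]
  intro i _
  rw [Finsupp.single_apply, if_neg]
  have := i.2
  omega

lemma pr_toV (k n : ℕ) (f : Fin n → K) : pr k n (toV k n f) = f := by
  ext i; rw [pr_apply, toV_apply_add]

lemma toV_injective (k n : ℕ) : Function.Injective (toV (K := K) k n) :=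
  Function.LeftInverse.injective (pr_toV k n)

lemma toV_pr_of_mem {n : ℕ} {v : V K} (hv : v ∈ Vn K n) : toV 0 n (pr 0 n v) = v := by
  ext i
  rcases lt_or_ge i n with hi | hi
  · have := toV_apply_add (K := K) 0 n (pr 0 n v) ⟨i, hi⟩
    simpa using this
  · rw [toV_apply_eq_zero _ _ _ _ (Or.inr (by omega)), hv i hi]

/-- `diag(A, 1)` for an automorphism `A` of `K^n`. -/
noncomputable def blockMap (n : ℕ) (A : (Fin n → K) ≃ₗ[K] (Fin n → K)) : V K ≃ₗ[K] V K :=
  mkAut A (toV 0 n) (D A ∘ₗ pr 0 n) (fun x => by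
    rw [LinearMap.comp_apply, pr_toV, D_apply])

lemma blockMap_apply (n : ℕ) (A : (Fin n → K) ≃ₗ[K] (Fin n → K)) (v : V K) :
    blockMap n A v = v + toV 0 n (A (pr 0 n v) - pr 0 n v) := rfl

lemma pr_blockMap (n : ℕ) (A : (Fin n → K) ≃ₗ[K] (Fin n → K)) (v : V K) :
    pr 0 n (blockMap n A v) = A (pr 0 n v) := by
  rw [blockMap_apply, map_add, pr_toV]; abel

lemma blockMap_mul (n : ℕ) (A B : (Fin n → K) ≃ₗ[K] (Fin n → K)) :
    blockMap n (A * B) = blockMap n A * blockMap n B := by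
  ext1 v
  rw [LinearEquiv.mul_apply, blockMap_apply n A, pr_blockMap, blockMap_apply, blockMap_apply,
    add_assoc, ← map_add, LinearEquiv.mul_apply]
  congr 2; abel

lemma blockMap_one (n : ℕ) : blockMap n (1 : (Fin n → K) ≃ₗ[K] (Fin n → K)) = 1 := by
  ext1 v
  rw [blockMap_apply]
  simp

lemma atLevel_blockMap (n : ℕ) (A : (Fin n → K) ≃ₗ[K] (Fin n → K)) :
    AtLevel n (blockMap n A) := by
  intro i hi
  constructor
  · rw [blockMap_apply]
    have : pr 0 n (Finsupp.single i (1 : K)) = 0 := by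
      ext j
      rw [pr_apply, Finsupp.single_apply, if_neg (by have := j.2; omega)]
      rfl
    rw [this, map_zero, sub_zero, map_zero, add_zero]
  · intro v
    rw [blockMap_apply, Finsupp.add_apply, toV_apply_eq_zero _ _ _ _ (Or.inr (by omega)),
      add_zero]

/-- The embedding of `GL_n(K)` in `GL_∞(K)`. -/
noncomputable def block (n : ℕ) : ((Fin n → K) ≃ₗ[K] (Fin n → K)) →* GLInf K where
  toFun A := ⟨blockMap n A, n, atLevel_blockMap n A⟩
  map_one' := Subtype.ext (blockMap_one n)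
  map_mul' A B := Subtype.ext (blockMap_mul n A B)

@[simp] lemma coe_block (n : ℕ) (A : (Fin n → K) ≃ₗ[K] (Fin n → K)) :
    ((block n A : GLInf K) : V K ≃ₗ[K] V K) = blockMap n A := rfl

lemma AtLevel.eq_toV {n : ℕ} {g : V K ≃ₗ[K] V K} (hg : AtLevel n g) (v : V K) :
    g v = v + toV 0 n (pr 0 n (g (toV 0 n (pr 0 n v))) - pr 0 n v) := by
  -- `v - toV (pr v)` is fixed by `g`
  have hfix : ∀ w : V K, pr 0 n w = 0 → g w = w := by
    intro w hw
    have : w = w.sum (fun i x => x • Finsupp.single i (1 : K)) := by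
      conv_lhs => rw [← Finsupp.sum_single w]
      apply Finsupp.sum_congr
      intro i _
      rw [Finsupp.smul_single, smul_eq_mul, mul_one]
    rw [this, map_finsuppSum]
    apply Finsupp.sum_congr
    intro i hi
    rw [map_smul]
    rcases lt_or_ge i n with h | h
    · exfalso
      have h1 := congrFun hw ⟨i, h⟩
      simp only [pr_apply, Pi.zero_apply, zero_add] at h1
      exact (Finsupp.mem_support_iff.1 hi) h1
    · rw [(hg i h).1]
  have h1 : g (v - toV 0 n (pr 0 n v)) = v - toV 0 n (pr 0 n v) := by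
    apply hfix
    rw [map_sub, pr_toV, sub_self]
  rw [map_sub, sub_eq_iff_eq_add] at h1
  have h2 : D g (toV 0 n (pr 0 n v)) ∈ Vn K n := hg.range_le ⟨_, rfl⟩
  have h3 := toV_pr_of_mem h2
  rw [D_apply, map_sub, pr_toV] at h3
  rw [h3, h1]; abel

lemma AtLevel.exists_block {n : ℕ} {g : V K ≃ₗ[K] V K} (hg : AtLevel n g) :
    ∃ A : (Fin n → K) ≃ₗ[K] (Fin n → K), blockMap n A = g := by
  have key : ∀ (a b : V K ≃ₗ[K] V K), AtLevel n a → AtLevel n b → a * b = 1 → ∀ x,
      pr 0 n (a (toV 0 n (pr 0 n (b (toV 0 n x))))) = x := by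
    intro a b ha hb hab x
    have h0 : b (toV 0 n x) ∈ Vn K n := by
      intro i hi
      rw [(hb i hi).2, toV_apply_eq_zero _ _ _ _ (Or.inr (by omega))]
    rw [toV_pr_of_mem h0]
    have : a (b (toV 0 n x)) = toV 0 n x := by
      rw [← LinearEquiv.mul_apply, hab]; rfl
    rw [this, pr_toV]
  refine ⟨LinearEquiv.ofLinear (pr 0 n ∘ₗ g.toLinearMap ∘ₗ toV 0 n)
    (pr 0 n ∘ₗ (g⁻¹).toLinearMap ∘ₗ toV 0 n) ?_ ?_, ?_⟩
  · apply LinearMap.ext
    intro x
    exact key g g⁻¹ hg hg.inv (mul_inv_cancel g) x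
  · apply LinearMap.ext
    intro x
    exact key g⁻¹ g hg.inv hg (inv_mul_cancel g) x
  · ext1 v
    rw [hg.eq_toV v]
    rfl

lemma emb_pr {M : Type} [AddCommGroup M] [Module K M] {A : M ≃ₗ[K] M} {n : ℕ}
    {B : (Fin n → K) ≃ₗ[K] (Fin n → K)} (h : HasType A (blockMap n B)) : HasType A B := by
  obtain ⟨α, h1, h2, h3⟩ := h
  have hV : ∀ x, α x ∈ Vn K n := by
    intro x
    have : α x ∈ LinearMap.range (D (blockMap n B)) := by rw [← h2]; exact ⟨x, rfl⟩
    exact (atLevel_blockMap n B).range_le this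
  refine ⟨pr 0 n ∘ₗ α, ?_, ?_, ?_⟩
  · intro x y hxy
    apply h1
    have := congrArg (toV 0 n) hxy
    simp only [LinearMap.comp_apply] at this
    rwa [toV_pr_of_mem (hV x), toV_pr_of_mem (hV y)] at this
  · rw [LinearMap.range_comp, h2]
    apply le_antisymm
    · rintro _ ⟨_, ⟨v, rfl⟩, rfl⟩
      refine ⟨pr 0 n v, ?_⟩
      rw [D_apply, D_apply, map_sub, pr_blockMap]
    · rintro _ ⟨x, rfl⟩
      refine ⟨D (blockMap n B) (toV 0 n x), ⟨_, rfl⟩, ?_⟩
      rw [D_apply, D_apply, map_sub, pr_blockMap, pr_toV]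
  · intro x
    rw [LinearMap.comp_apply, LinearMap.comp_apply, h3, pr_blockMap]

lemma HasType.conj {M : Type} [AddCommGroup M] [Module K M] {A : M ≃ₗ[K] M}
    {U : Type} [AddCommGroup U] [Module K U] {g h : U ≃ₗ[K] U}
    (hg : HasType A g) : HasType A (h * g * h⁻¹) := by
  obtain ⟨α, h1, h2, h3⟩ := hg
  refine ⟨h.toLinearMap ∘ₗ α, h.injective.comp h1, ?_, ?_⟩
  · rw [LinearMap.range_comp, h2, range_D_conj]
  · intro x
    simp only [LinearMap.comp_apply, LinearEquiv.coe_coe, LinearEquiv.mul_apply]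
    have : h⁻¹ (h (α x)) = α x := h.symm_apply_apply _
    rw [this, h3]

/-- Elements of `GL_∞` of the same type are conjugate. -/
theorem isConj_of_type {M : Type} [AddCommGroup M] [Module K M] {A : M ≃ₗ[K] M}
    {g g' : GLInf K} (h : HasType A (g : V K ≃ₗ[K] V K)) (h' : HasType A (g' : V K ≃ₗ[K] V K)) :
    IsConj g g' := by
  obtain ⟨n, hn⟩ := mem_GLInf.1 g.2
  obtain ⟨m, hm⟩ := mem_GLInf.1 g'.2
  obtain ⟨B, hB⟩ := (AtLevel.mono (le_max_left n m) hn).exists_block
  obtain ⟨B', hB'⟩ := (AtLevel.mono (le_max_right n m) hm).exists_block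
  rw [← hB] at h
  rw [← hB'] at h'
  obtain ⟨e, he⟩ := conj_of_type (emb_pr h) (emb_pr h')
  rw [isConj_iff]
  refine ⟨block _ e, ?_⟩
  rw [mul_inv_eq_iff_eq_mul]
  apply Subtype.ext
  rw [Subgroup.coe_mul, Subgroup.coe_mul, coe_block, ← hB, ← hB', ← blockMap_mul, ← blockMap_mul,
    he]

lemma hasType_of_isConj {M : Type} [AddCommGroup M] [Module K M] {A : M ≃ₗ[K] M}
    {g g' : GLInf K} (h : HasType A (g : V K ≃ₗ[K] V K)) (H : IsConj g g') :
    HasType A (g' : V K ≃ₗ[K] V K) := by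
  obtain ⟨c, rfl⟩ := isConj_iff.1 H
  exact h.conj

/-- Every finite dimensional space with an automorphism is the type of some element. -/
theorem exists_hasType {M : Type} [AddCommGroup M] [Module K M] [FiniteDimensional K M]
    (A : M ≃ₗ[K] M) : ∃ g : GLInf K, HasType A (g : V K ≃ₗ[K] V K) := by
  obtain ⟨φ⟩ : Nonempty (M ≃ₗ[K] (Fin (finrank K M) → K)) :=
    ⟨(finBasis K M).equivFun⟩
  set n := finrank K M
  let α : M →ₗ[K] V K := toV 0 n ∘ₗ φ.toLinearMap
  let b : V K →ₗ[K] M := D A ∘ₗ φ.symm.toLinearMap ∘ₗ pr 0 n + φ.symm.toLinearMap ∘ₗ pr n n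
  have hpr : ∀ f : Fin n → K, pr n n (toV 0 n f) = 0 := by
    intro f
    ext i
    rw [pr_apply, toV_apply_eq_zero _ _ _ _ (Or.inr (by omega))]; rfl
  have hpr2 : ∀ f : Fin n → K, pr 0 n (toV n n f) = 0 := by
    intro f
    ext i
    rw [pr_apply, toV_apply_eq_zero _ _ _ _ (Or.inl (by have := i.2; omega))]; rfl
  have h : ∀ x, b (α x) = A x - x := by
    intro x
    simp only [b, α, LinearMap.add_apply, LinearMap.comp_apply, LinearEquiv.coe_coe, pr_toV,
      LinearEquiv.symm_apply_apply, hpr, map_zero, add_zero, D_apply]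
  have hα : Function.Injective α := (toV_injective 0 n).comp φ.injective
  have hb : Function.Surjective b := by
    intro x
    refine ⟨toV n n (φ x), ?_⟩
    simp only [b, LinearMap.add_apply, LinearMap.comp_apply, LinearEquiv.coe_coe, pr_toV,
      LinearEquiv.symm_apply_apply, hpr2, map_zero, zero_add]
  have hmem : mkAut A α b h ∈ GLInf K := by
    refine ⟨n + n, fun i hi => ⟨?_, fun v => ?_⟩⟩
    · rw [mkAut_apply]
      have h1 : pr 0 n (Finsupp.single i (1 : K)) = 0 := by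
        ext j
        rw [pr_apply, Finsupp.single_apply, if_neg (by have := j.2; omega)]
        rfl
      have h2 : pr n n (Finsupp.single i (1 : K)) = 0 := by
        ext j
        rw [pr_apply, Finsupp.single_apply, if_neg (by have := j.2; omega)]
        rfl
      have h3 : b (Finsupp.single i (1 : K)) = 0 := by
        simp only [b, LinearMap.add_apply, LinearMap.comp_apply, h1, h2, map_zero, add_zero]
      rw [h3, map_zero, add_zero]
    · rw [mkAut_apply, Finsupp.add_apply]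
      have : α (b v) i = 0 := toV_apply_eq_zero _ _ _ _ (Or.inr (by omega))
      rw [this, add_zero]
  exact ⟨⟨_, hmem⟩, α, mem_Emb_mkAut A α b h hα hb⟩

section restr

variable {U : Type} [AddCommGroup U] [Module K U]

/-- restriction of `g` to the range of `g - 1` -/
def restr (g : U ≃ₗ[K] U) : LinearMap.range (D g) ≃ₗ[K] LinearMap.range (D g) where
  toFun w := ⟨g w, by
    obtain ⟨v, hv⟩ := w.2
    exact ⟨g v, by rw [← hv, D_apply, D_apply, map_sub]⟩⟩
  map_add' x y := Subtype.ext (map_add g _ _)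
  map_smul' c x := Subtype.ext (map_smul g _ _)
  invFun w := ⟨g.symm w, by
    obtain ⟨v, hv⟩ := w.2
    exact ⟨g.symm v, by
      rw [← hv, D_apply, D_apply, map_sub, g.apply_symm_apply, g.symm_apply_apply]⟩⟩
  left_inv x := Subtype.ext (g.symm_apply_apply _)
  right_inv x := Subtype.ext (g.apply_symm_apply _)

@[simp] lemma coe_restr (g : U ≃ₗ[K] U) (w : LinearMap.range (D g)) :
    ((restr g w : LinearMap.range (D g)) : U) = g w := rfl

lemma hasType_restr (g : U ≃ₗ[K] U) : HasType (restr g) g :=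
  ⟨(LinearMap.range (D g)).subtype, Subtype.val_injective, Submodule.range_subtype _,
    fun _ => rfl⟩

end restr

lemma HasType.of_iso {U M N : Type} [AddCommGroup U] [Module K U] [AddCommGroup M] [Module K M]
    [AddCommGroup N] [Module K N] {A : M ≃ₗ[K] M} {B : N ≃ₗ[K] N} {g : U ≃ₗ[K] U}
    (h : HasType A g) (e : N ≃ₗ[K] M) (he : ∀ x, e (B x) = A (e x)) : HasType B g := by
  obtain ⟨α, h1, h2, h3⟩ := h
  refine ⟨α ∘ₗ e.toLinearMap, h1.comp e.injective, ?_, fun x => ?_⟩
  · rw [LinearMap.range_comp, LinearEquiv.range, Submodule.map_top, h2]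
  · simp only [LinearMap.comp_apply, LinearEquiv.coe_coe, he, h3]

lemma HasType.iso {U M N : Type} [AddCommGroup U] [Module K U] [AddCommGroup M] [Module K M]
    [AddCommGroup N] [Module K N] {A : M ≃ₗ[K] M} {B : N ≃ₗ[K] N} {g : U ≃ₗ[K] U}
    (h : HasType A g) (h' : HasType B g) : ∃ e : M ≃ₗ[K] N, ∀ x, e (A x) = B (e x) := by
  obtain ⟨α, h1, h2, h3⟩ := h
  obtain ⟨β, h1', h2', h3'⟩ := h'
  let e1 := LinearEquiv.ofInjective α h1
  let e2 := LinearEquiv.ofInjective β h1'
  let e3 : LinearMap.range α ≃ₗ[K] LinearMap.range β := LinearEquiv.ofEq _ _ (h2.trans h2'.symm)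
  have key : ∀ x, β (((e1.trans e3).trans e2.symm) x) = α x := by
    intro x
    have : (e2 (e2.symm (e3 (e1 x))) : U) = α x := by
      rw [LinearEquiv.apply_symm_apply]; rfl
    exact this
  refine ⟨(e1.trans e3).trans e2.symm, fun x => ?_⟩
  apply h1'
  rw [key, h3, h3', key]

lemma HasType.finrank_eq {M : Type} [AddCommGroup M] [Module K M] {A : M ≃ₗ[K] M}
    {g : GLInf K} (h : HasType A (g : V K ≃ₗ[K] V K)) : finrank K M = len g := by
  obtain ⟨α, h1, h2, h3⟩ := h
  rw [len_eq, ← h2, LinearMap.finrank_range_of_inj h1]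

end Pool.Agent.Lib.MP_02a407_al
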