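import Pool.Agent.Lib.MP_02a407_al.Surj

/-!
# Multiplication of the rescaled class elements modulo `q - 1`
-/

namespace Pool.Agent.Lib.MP_02a407_al

open Module

variable {K : Type} [Field K]

/-- The class element scaled by the order of the centralizer of its type. -/
noncomputable def kc (C : Cls K) : StableCenter K :=
  (cent (cA (C : ConjClasses (GLInf K))) : ℤ) • classElt (C : ConjClasses (GLInf K))

/-- The length of a class -/
noncomputable def cl (C : Cls K) : ℕ := clen (C : ConjClasses (GLInf K))

lemma cl_add (C D : Cls K) : cl (C + D) = cl C + cl D := by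
  rw [cls_add, cl, cl, cl, dsum, clen_ofType, Module.finrank_prod, finrank_cM, finrank_cM]

lemma cl_zero : cl (0 : Cls K) = 0 := by
  rw [cls_zero, cl, mk_one_eq, clen_ofType]
  exact finrank_zero_of_subsingleton

/-- the integral lattice spanned by the rescaled class elements of length `n` -/
noncomputable def Lat (K : Type) [Field K] (n : ℕ) : Submodule ℤ (StableCenter K) :=
  Submodule.span ℤ {x | ∃ C : Cls K, cl C = n ∧ kc C = x}

lemma kc_mem (C : Cls K) : kc C ∈ Lat K (cl C) := Submodule.subset_span ⟨C, rfl, rfl⟩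

lemma kc_mem' (C : Cls K) {n : ℕ} (h : cl C = n) : kc C ∈ Lat K n :=
  Submodule.subset_span ⟨C, h, rfl⟩

variable [Finite K]

lemma classElt_mul (C D : ConjClasses (GLInf K)) : classElt C * classElt D = basisMul C D := by
  apply ev_injective
  rw [ev_mul]
  ext g
  rw [ev_basisMul]

lemma coeffs_smul (n : ℤ) (x : StableCenter K) (E : ConjClasses (GLInf K)) :
    coeffs (n • x) E = n * coeffs x E := Finsupp.smul_apply _ _ _

lemma coeffs_add (x y : StableCenter K) (E : ConjClasses (GLInf K)) :
    coeffs (x + y) E = coeffs x E + coeffs y E := rfl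

open Classical in
/-- the indicator of a proposition -/
noncomputable def ind (P : Prop) : ℤ := if P then 1 else 0

lemma ind_pos {P : Prop} (h : P) : ind P = 1 := if_pos h

lemma ind_neg {P : Prop} (h : ¬ P) : ind P = 0 := if_neg h

omit [Finite K] in
lemma coeffs_classElt (C E : ConjClasses (GLInf K)) :
    coeffs (classElt C) E = ind (E = C) := by
  classical
  change (Finsupp.single C (1 : ℤ)) E = _
  rw [Finsupp.single_apply]
  by_cases h : C = E
  · rw [if_pos h, ind_pos h.symm]
  · rw [if_neg h, ind_neg (fun h' => h h'.symm)]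

open Classical in
lemma coeffs_basisMul (C D E : ConjClasses (GLInf K)) :
    coeffs (basisMul C D) E =
      if clen E = clen C + clen D then (structConst C D E : ℤ) else 0 := rfl

lemma structConst_identity (C D E : ConjClasses (GLInf K)) (h : clen E = clen C + clen D) :
    ∃ k : ℤ, (structConst C D E : ℤ) * ((cent (cA C) : ℤ) * (cent (cA D) : ℤ)) =
      (ind (E = dsum C D) + ((Nat.card K : ℤ) - 1) * k) * (cent (cA E) : ℤ) := by
  have hq : 1 ≤ Nat.card K := Nat.card_pos
  obtain ⟨k, hk⟩ := card_pairs (cA C) (cA D) ((rep E : GLInf K) : V K ≃ₗ[K] V K)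
  refine ⟨k, ?_⟩
  have h1 := count_identity (cA C) (cA D) (rep E)
  rw [hk] at h1
  have h2 : structConst C D E = Nat.card {p : GLInf K × GLInf K // p ∈ Fact (rep E) ∧
      HasType (cA C) (p.1 : V K ≃ₗ[K] V K) ∧ HasType (cA D) (p.2 : V K ≃ₗ[K] V K)} := by
    apply Nat.card_congr
    apply Equiv.subtypeEquivRight
    rintro ⟨c, d⟩
    constructor
    · rintro ⟨h1, h2, h3⟩
      refine ⟨⟨h3, ?_⟩, hasType_cA_iff.2 h1, hasType_cA_iff.2 h2⟩
      rw [len_of_mk h1, len_of_mk h2]
      exact h.symm
    · rintro ⟨⟨h3, _⟩, h1, h2⟩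
      exact ⟨hasType_cA_iff.1 h1, hasType_cA_iff.1 h2, h3⟩
  have h3 : HasType (prodAut (cA C) (cA D)) ((rep E : GLInf K) : V K ≃ₗ[K] V K) ↔
      E = dsum C D := by
    rw [hasType_iff_mk, mk_rep]; rfl
  have h5 : centG ((rep E : GLInf K) : V K ≃ₗ[K] V K) = cent (cA E) := rfl
  rw [← h2, h5] at h1
  have h6 := congrArg (Nat.cast (R := ℤ)) h1
  push_cast [hq] at h6
  rw [h6]
  by_cases h4 : E = dsum C D
  · rw [ind_pos h4, if_pos (h3.2 h4)]
  · rw [ind_neg h4, if_neg (fun h' => h4 (h3.1 h'))]

theorem kc_mul (C D : Cls K) : ∃ y ∈ Lat K (cl (C + D)),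
    kc C * kc D = kc (C + D) + ((Nat.card K : ℤ) - 1) • y := by
  classical
  have hex : ∀ E : Cls K, ∃ k : ℤ, cl E = cl (C + D) →
      (structConst C D E : ℤ) * ((cent (cA (C : ConjClasses (GLInf K))) : ℤ) *
        (cent (cA (D : ConjClasses (GLInf K))) : ℤ)) =
      (ind (E = C + D) + ((Nat.card K : ℤ) - 1) * k) *
        (cent (cA (E : ConjClasses (GLInf K))) : ℤ) := by
    intro E
    by_cases h : cl E = cl (C + D)
    · have h' := h
      rw [cl_add] at h'
      obtain ⟨k, hk⟩ := structConst_identity C D E h'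
      exact ⟨k, fun _ => hk⟩
    · exact ⟨0, fun h' => absurd h' h⟩
  choose k hk using hex
  have hfin : {E : Cls K | cl E = cl (C + D)}.Finite := finite_classes (K := K) (cl (C + D))
  refine ⟨∑ E ∈ hfin.toFinset, k E • kc E, ?_, ?_⟩
  · refine Submodule.sum_mem _ (fun E hE => Submodule.smul_mem _ _ (kc_mem' E ?_))
    rwa [Set.Finite.mem_toFinset] at hE
  · have hkc : ∀ F E : Cls K, coeffs (kc F) E =
        (cent (cA (F : ConjClasses (GLInf K))) : ℤ) * ind (E = F) := by
      intro F E
      rw [kc, coeffs_smul, coeffs_classElt]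
      rfl
    have hsum : ∀ E : Cls K, coeffs (∑ E ∈ hfin.toFinset, k E • kc E) E =
        if cl E = cl (C + D) then k E * (cent (cA (E : ConjClasses (GLInf K))) : ℤ) else 0 := by
      intro E
      rw [coeffs_sum]
      have : ∀ F ∈ hfin.toFinset, coeffs (k F • kc F) E =
          if E = F then k E * (cent (cA (E : ConjClasses (GLInf K))) : ℤ) else 0 := by
        intro F _
        rw [coeffs_smul, hkc]
        by_cases h : E = F
        · subst h
          rw [ind_pos rfl, mul_one, if_pos rfl]
        · rw [ind_neg h, if_neg h, mul_zero, mul_zero]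
      rw [Finset.sum_congr rfl this, Finset.sum_ite_eq]
      by_cases h : cl E = cl (C + D)
      · rw [if_pos h, if_pos (by rw [Set.Finite.mem_toFinset]; exact h)]
      · rw [if_neg h, if_neg (by rw [Set.Finite.mem_toFinset]; exact h)]
    have h1 : kc C * kc D = ((cent (cA (C : ConjClasses (GLInf K))) : ℤ) *
        (cent (cA (D : ConjClasses (GLInf K))) : ℤ)) • basisMul C D := by
      rw [kc, kc, smul_mul_smul_comm, classElt_mul]
    have main : ∀ E : Cls K, coeffs (kc C * kc D) E = coeffs (kc (C + D) +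
        ((Nat.card K : ℤ) - 1) • ∑ E ∈ hfin.toFinset, k E • kc E) E := by
      intro E
      rw [coeffs_add, coeffs_smul, hsum, h1, coeffs_smul, hkc]
      by_cases h : cl E = cl (C + D)
      · have h' : clen E = clen C + clen D := by
          rw [cl_add] at h; exact h
        have h2 := hk E h
        have h3 : coeffs (basisMul C D) E = (structConst C D E : ℤ) := if_pos h'
        rw [if_pos h, h3, mul_comm, h2]
        by_cases h3 : E = C + D
        · subst h3
          rw [ind_pos rfl]
          ring
        · rw [ind_neg h3]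
          ring
      · have h' : ¬ clen E = clen C + clen D := by
          rw [cl_add] at h; exact h
        have h3 : coeffs (basisMul C D) E = 0 := if_neg h'
        have h4 : ¬ E = C + D := by
          rintro rfl
          exact h rfl
        rw [if_neg h, h3, ind_neg h4]
        ring
    exact Finsupp.ext main

omit [Finite K] in
lemma kc_zero : kc (0 : Cls K) = 1 := by
  have h1 : cent (cA ((0 : Cls K) : ConjClasses (GLInf K))) = 1 := by
    obtain ⟨e, he⟩ := ofType_iso ((ofType_cA ((0 : Cls K) : ConjClasses (GLInf K))).trans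
      (cls_zero.trans mk_one_eq))
    rw [cent_iso e he, cent, Nat.card_eq_one_iff_unique]
    refine ⟨⟨fun a b => ?_⟩, ⟨⟨LinearEquiv.refl K _, fun _ => rfl⟩⟩⟩
    apply Subtype.ext
    ext x
  rw [kc, h1, Nat.cast_one, one_smul]
  rfl

/-- `x` is congruent to `kc C` modulo `q - 1`. -/
def Good (C : Cls K) (x : StableCenter K) : Prop :=
  ∃ y ∈ Lat K (cl C), x = kc C + ((Nat.card K : ℤ) - 1) • y

lemma Lat_mul {n m : ℕ} {x y : StableCenter K} (hx : x ∈ Lat K n) (hy : y ∈ Lat K m) :
    x * y ∈ Lat K (n + m) := by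
  induction hx using Submodule.span_induction with
  | mem x hx =>
    obtain ⟨C, hC, rfl⟩ := hx
    induction hy using Submodule.span_induction with
    | mem y hy =>
      obtain ⟨D, hD, rfl⟩ := hy
      obtain ⟨z, hz, h⟩ := kc_mul C D
      have hCD : cl (C + D) = n + m := by rw [cl_add, hC, hD]
      rw [h]
      rw [hCD] at hz
      exact Submodule.add_mem _ (kc_mem' _ hCD) (Submodule.smul_mem _ _ hz)
    | zero => rw [mul_zero]; exact Submodule.zero_mem _
    | add a b _ _ ha hb => rw [mul_add]; exact Submodule.add_mem _ ha hb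
    | smul c a _ ha => rw [mul_smul_comm]; exact Submodule.smul_mem _ _ ha
  | zero => rw [zero_mul]; exact Submodule.zero_mem _
  | add a b _ _ ha hb => rw [add_mul]; exact Submodule.add_mem _ ha hb
  | smul c a _ ha => rw [smul_mul_assoc]; exact Submodule.smul_mem _ _ ha

lemma Good.mul {C D : Cls K} {x y : StableCenter K} (hx : Good C x) (hy : Good D y) :
    Good (C + D) (x * y) := by
  obtain ⟨a, ha, rfl⟩ := hx
  obtain ⟨b, hb, rfl⟩ := hy
  obtain ⟨c, hc, h⟩ := kc_mul C D
  set q1 : ℤ := (Nat.card K : ℤ) - 1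
  refine ⟨c + kc C * b + a * kc D + q1 • (a * b), ?_, ?_⟩
  · have h1 := Lat_mul (kc_mem C) hb
    have h2 := Lat_mul ha (kc_mem D)
    have h3 := Lat_mul ha hb
    rw [← cl_add] at h1 h2 h3
    exact Submodule.add_mem _ (Submodule.add_mem _ (Submodule.add_mem _ hc h1) h2)
      (Submodule.smul_mem _ _ h3)
  · rw [add_mul, mul_add, mul_add, h]
    simp only [mul_smul_comm, smul_mul_assoc, smul_add]
    abel

lemma Good.kc (C : Cls K) : Good C (kc C) := ⟨0, Submodule.zero_mem _, by simp⟩

lemma Good.one : Good (0 : Cls K) 1 := by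
  rw [← kc_zero]; exact Good.kc 0

lemma Good.pow {C : Cls K} {x : StableCenter K} (hx : Good C x) (n : ℕ) :
    Good (n • C) (x ^ n) := by
  induction n with
  | zero => rw [zero_smul, pow_zero]; exact Good.one
  | succ n ih => rw [succ_nsmul, pow_succ]; exact ih.mul hx

lemma Good.prod {ι : Type} (s : Finset ι) (C : ι → Cls K) (x : ι → StableCenter K)
    (h : ∀ i ∈ s, Good (C i) (x i)) : Good (∑ i ∈ s, C i) (∏ i ∈ s, x i) := by
  classical
  induction s using Finset.induction_on with
  | empty => rw [Finset.sum_empty, Finset.prod_empty]; exact Good.one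
  | insert a s ha ih =>
    rw [Finset.sum_insert ha, Finset.prod_insert ha]
    exact (h a (Finset.mem_insert_self a s)).mul
      (ih (fun i hi => h i (Finset.mem_insert_of_mem hi)))

/-- The monomials in the rescaled single cycle classes. -/
theorem good_monomial (μ : CycleIndex K →₀ ℕ) :
    Good (theta K μ) (μ.prod (fun s n => kc (cyc s) ^ n)) := by
  rw [theta_apply]
  exact Good.prod _ _ _ (fun s _ => (Good.kc (cyc s)).pow _)

end Pool.Agent.Lib.MP_02a407_al
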