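import Mathlib

/-!
# Definitions used in the statement on the stable center of the groups `GL_n(q)`
-/

namespace Pool.Agent.Lib.MP_02a407_al

open Module Polynomial

/-- The space of finitely supported sequences over `K`. -/
abbrev V (K : Type) [Field K] : Type := ℕ →₀ K

variable {K : Type} [Field K]

/-- `g` is of the form `diag(g', 1)` with `g'` of size `n`. -/
def AtLevel (n : ℕ) (g : V K ≃ₗ[K] V K) : Prop :=
  ∀ i, n ≤ i → g (Finsupp.single i 1) = Finsupp.single i 1 ∧ ∀ v, g v i = v i

lemma AtLevel.mono {n m : ℕ} (h : n ≤ m) {g : V K ≃ₗ[K] V K} (hg : AtLevel n g) : AtLevel m g :=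
  fun i hi => hg i (h.trans hi)

lemma AtLevel.one (n : ℕ) : AtLevel n (1 : V K ≃ₗ[K] V K) := fun _ _ => ⟨rfl, fun _ => rfl⟩

lemma AtLevel.mul {n : ℕ} {g h : V K ≃ₗ[K] V K} (hg : AtLevel n g) (hh : AtLevel n h) :
    AtLevel n (g * h) := by
  intro i hi
  refine ⟨?_, fun v => ?_⟩
  · rw [LinearEquiv.mul_apply, (hh i hi).1, (hg i hi).1]
  · rw [LinearEquiv.mul_apply, (hg i hi).2, (hh i hi).2]

lemma AtLevel.inv {n : ℕ} {g : V K ≃ₗ[K] V K} (hg : AtLevel n g) :
    AtLevel n g⁻¹ := by
  intro i hi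
  refine ⟨?_, fun v => ?_⟩
  · apply g.injective
    rw [(hg i hi).1]
    exact g.apply_symm_apply _
  · have := (hg i hi).2 (g⁻¹ v)
    rw [← this]
    have h2 : g (g⁻¹ v) = v := g.apply_symm_apply _
    rw [h2]

/-- `GL_∞(K)`, the union of the groups `GL_n(K)`, where `GL_n(K)` is embedded in `GL_{n+1}(K)` by
`g ↦ diag(g, 1)`: the automorphisms of the space of finitely supported sequences which, for some
`n`, fix the basis vectors `e_i`, `n ≤ i`, and do not change the coordinates of index `≥ n`. -/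
def GLInf (K : Type) [Field K] : Subgroup (V K ≃ₗ[K] V K) where
  carrier := {g | ∃ n : ℕ, AtLevel n g}
  mul_mem' := by
    rintro a b ⟨n, hn⟩ ⟨m, hm⟩
    exact ⟨max n m, AtLevel.mul (AtLevel.mono (le_max_left _ _) hn)
      (AtLevel.mono (le_max_right _ _) hm)⟩
  one_mem' := ⟨0, AtLevel.one 0⟩
  inv_mem' := by
    rintro a ⟨n, hn⟩
    exact ⟨n, AtLevel.inv hn⟩

/-- The group `GL_∞(K)`. -/
def GInf (K : Type) [Field K] : Type := GLInf K

noncomputable instance (K : Type) [Field K] : Group (GInf K) := (GLInf K).toGroup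

/-- The automorphism of `V K` given by an element of `GL_∞(K)`. -/
noncomputable def GInf.lin (g : GInf K) : V K →ₗ[K] V K := (g.1 : V K ≃ₗ[K] V K)

/-- The reflection length `ℓ(g) = rank (g - 1)`. -/
noncomputable def rlen (g : GInf K) : ℕ := finrank K (LinearMap.range (g.lin - LinearMap.id))

/-- The index set of the single cycle classes: pairs `(f, r)` with `f ≠ X` monic irreducible and
`r ≥ 1`. -/
structure CycleIndex (K : Type) [Field K] : Type where
  /-- the polynomial -/
  f : K[X]
  /-- the exponent -/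
  r : ℕ
  monic : f.Monic
  irred : Irreducible f
  ne_X : f ≠ X
  pos : 1 ≤ r

open Classical in
/-- `f ^ (r + 1)` if `f = X - 1`, and `f ^ r` otherwise. -/
noncomputable def cycPoly (s : CycleIndex K) : K[X] :=
  if s.f = X - 1 then s.f ^ (s.r + 1) else s.f ^ s.r

/-- `g` belongs to the single cycle class `(r)_f`: as a `K[X]`-module, `X` acting as `g`, the
space is the direct sum of a submodule isomorphic to `K[X]/(P)` and of a submodule on which `g`
acts trivially. Here `P = (X - 1) ^ (r + 1)` if `f = X - 1` and `P = f ^ r` otherwise. -/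
def IsSingleCycle (s : CycleIndex K) (g : GInf K) : Prop :=
  ∃ (φ : AdjoinRoot (cycPoly s) →ₗ[K] V K) (U : Submodule K (V K)),
    Function.Injective φ ∧ IsCompl (LinearMap.range φ) U ∧
    (∀ x, φ (AdjoinRoot.root (cycPoly s) * x) = g.lin (φ x)) ∧ ∀ u ∈ U, g.lin u = u

end Pool.Agent.Lib.MP_02a407_al
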