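import Pool.Agent.Lib.MP_02a407_al.Ring

/-!
# The structure constants at finite level
-/

namespace Pool.Agent.Lib.MP_02a407_al

open Module

variable {K : Type} [Field K] [Finite K]

lemma structConst_mk (C D : ConjClasses (GLInf K)) (g : GLInf K) (h : len g = clen C + clen D) :
    structConst C D (ConjClasses.mk g) = Nat.card {p : GLInf K × GLInf K //
      p ∈ Fact g ∧ ConjClasses.mk p.1 = C ∧ ConjClasses.mk p.2 = D} := by
  classical
  have h1 := ev_basisMul C D g
  have h2 : ev (basisMul C D) g = (structConst C D (ConjClasses.mk g) : ℤ) :=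
    if_pos (by rw [clen_mk]; exact h)
  have hR : conv (ev (classElt C)) (ev (classElt D)) g =
      (((facts g).filter (fun p => ConjClasses.mk p.1 = C ∧ ConjClasses.mk p.2 = D)).card : ℤ) := by
    rw [conv, Finset.card_filter]
    push_cast
    apply Finset.sum_congr rfl
    intro p _
    rw [ev_classElt, ev_classElt]
    by_cases h1 : ConjClasses.mk p.1 = C <;> by_cases h2 : ConjClasses.mk p.2 = D <;> simp [h1, h2]
  rw [h2, hR] at h1
  have h3 := Nat.cast_injective h1
  have hcard : ((facts g).filter (fun p => ConjClasses.mk p.1 = C ∧ ConjClasses.mk p.2 = D)).card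
      = Nat.card {p : GLInf K × GLInf K // p ∈ (facts g).filter
        (fun p => ConjClasses.mk p.1 = C ∧ ConjClasses.mk p.2 = D)} := by
    rw [Nat.card_eq_fintype_card, Fintype.card_coe]
  rw [h3, hcard]
  apply Nat.card_congr
  apply Equiv.subtypeEquivRight
  intro p
  rw [Finset.mem_filter, mem_facts]
  rfl

omit [Finite K] in
lemma block_injective (n : ℕ) : Function.Injective (block (K := K) n) := by
  intro A B h
  have h1 : blockMap n A = blockMap n B := congrArg Subtype.val h
  ext1 x
  have h2 := pr_blockMap n A (toV 0 n x)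
  rw [h1, pr_blockMap, pr_toV] at h2
  exact h2.symm

/-- The structure constants of the stable center count factorizations in `GL_n(K)`, for every
`n`. -/
theorem structConst_level (n : ℕ) (C D : ConjClasses (GLInf K))
    (e : (Fin n → K) ≃ₗ[K] (Fin n → K)) (h : len (block n e) = clen C + clen D) :
    structConst C D (ConjClasses.mk (block n e)) =
      Nat.card {p : ((Fin n → K) ≃ₗ[K] (Fin n → K)) × ((Fin n → K) ≃ₗ[K] (Fin n → K)) //
        ConjClasses.mk (block n p.1) = C ∧ ConjClasses.mk (block n p.2) = D ∧ p.1 * p.2 = e} := by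
  rw [structConst_mk C D _ h]
  symm
  apply Nat.card_congr
  refine Equiv.ofBijective (fun p => ⟨(block n p.1.1, block n p.1.2), ?_⟩) ⟨?_, ?_⟩
  · obtain ⟨h1, h2, h3⟩ := p.2
    refine ⟨⟨?_, ?_⟩, h1, h2⟩
    · rw [← map_mul, h3]
    · rw [len_of_mk h1, len_of_mk h2, h]
  · intro p p' hpp
    have h1 := congrArg Subtype.val hpp
    simp only [Prod.mk.injEq] at h1
    apply Subtype.ext
    exact Prod.ext (block_injective n h1.1) (block_injective n h1.2)
  · rintro ⟨⟨c, d⟩, ⟨h1, h2⟩, h3, h4⟩
    simp only at h1 h2 h3 h4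
    have hlev : AtLevel n ((c * d : GLInf K) : V K ≃ₗ[K] V K) := by
      rw [h1]; exact atLevel_blockMap n e
    obtain ⟨hc, hd⟩ := level_of_additive hlev (by rw [h1]; exact h2)
    obtain ⟨A, hA⟩ := hc.exists_block
    obtain ⟨B, hB⟩ := hd.exists_block
    have hA' : block n A = c := Subtype.ext hA
    have hB' : block n B = d := Subtype.ext hB
    subst hA'
    subst hB'
    refine ⟨⟨(A, B), h3, h4, ?_⟩, rfl⟩
    rw [← map_mul] at h1
    exact block_injective n h1

end Pool.Agent.Lib.MP_02a407_al
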