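import Pool.Agent.Lib.MP_02a407_al.Main
import Pool.Agent.Lib.MP_02a407_al.Level

/-!
# The final statement
-/

namespace Pool.Agent.Lib.MP_02a407_al

open Module Polynomial TensorProduct

variable {K : Type} [Field K]

/-- An element of `GInf K`, as an element of the subgroup `GLInf K`. -/
def GInf.sub (g : GInf K) : GLInf K := g

lemma rlen_eq (g : GInf K) : rlen g = len g.sub := rfl

lemma GInf.lin_eq (g : GInf K) (v : V K) : g.lin v = (g.sub : V K ≃ₗ[K] V K) v := rfl

lemma hasType_of_isSingleCycle {s : CycleIndex K} {g : GInf K} (h : IsSingleCycle s g) :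
    HasType (rootAut (s.f ^ s.r) (s.coprime_X_pow _)) (g.sub : V K ≃ₗ[K] V K) := by
  obtain ⟨φ, U, h1, h2, h3, h4⟩ := h
  have hdvd : cycPoly s ∣ (X - 1) * s.f ^ s.r := by
    rw [cycPoly]
    split_ifs with h
    · rw [← h, pow_succ, mul_comm]
    · exact Dvd.intro_left _ rfl
  have hinj : ∀ a, cycPoly s ∣ (X - 1) * a → s.f ^ s.r ∣ a := by
    intro a ha
    rw [cycPoly] at ha
    split_ifs at ha with h
    · rw [← h, pow_succ'] at ha
      exact (mul_dvd_mul_iff_left s.irred.ne_zero).1 ha
    · have hcop : IsCoprime (s.f ^ s.r) (X - 1) := by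
        apply IsCoprime.pow_left
        rw [Irreducible.coprime_iff_not_dvd s.irred]
        intro hd
        apply h
        have hX : Irreducible (X - 1 : K[X]) := by
          have := irreducible_X_sub_C (1 : K)
          rwa [map_one] at this
        have hm : (X - 1 : K[X]).Monic := by
          have := monic_X_sub_C (1 : K)
          rwa [map_one] at this
        exact eq_of_monic_of_associated s.monic hm (s.irred.associated_of_dvd hX hd)
      exact hcop.dvd_of_dvd_mul_left ha
  refine ⟨φ ∘ₗ mulMap (s.f ^ s.r) (cycPoly s) (X - 1) hdvd,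
    h1.comp (mulMap_injective _ _ _ _ hinj), ?_, ?_⟩
  · rw [LinearMap.range_comp, range_mulMap]
    apply le_antisymm
    · rintro _ ⟨_, ⟨y, rfl⟩, rfl⟩
      refine ⟨φ y, ?_⟩
      rw [D_apply, ← GInf.lin_eq, ← h3, LinearMap.mulLeft_apply, map_sub, AdjoinRoot.mk_X,
        map_one, sub_mul, one_mul, map_sub]
    · rintro _ ⟨v, rfl⟩
      obtain ⟨a, ha, u, hu, rfl⟩ : ∃ a ∈ LinearMap.range φ, ∃ u ∈ U, a + u = v := by
        have : v ∈ LinearMap.range φ ⊔ U := by rw [h2.sup_eq_top]; trivial
        exact Submodule.mem_sup.1 this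
      obtain ⟨y, rfl⟩ := ha
      refine ⟨(AdjoinRoot.root (cycPoly s) - 1) * y, ⟨y, ?_⟩, ?_⟩
      · rw [LinearMap.mulLeft_apply, map_sub, AdjoinRoot.mk_X, map_one]
      · rw [D_apply, map_add, ← GInf.lin_eq, ← GInf.lin_eq, h4 u hu, ← h3, sub_mul, one_mul,
          map_sub]
        abel
  · intro x
    rw [LinearMap.comp_apply, LinearMap.comp_apply, rootAut_apply, mulMap_root, h3, GInf.lin_eq]

/-- The representative of the single cycle class. -/
noncomputable def cycElt (s : CycleIndex K) : GInf K :=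
  block (cycPoly s).natDegree (companion (cycPoly s) (cycPoly_monic s) (cycPoly_coprime s))

lemma isSingleCycle_cycElt (s : CycleIndex K) : IsSingleCycle s (cycElt s) := by
  let e : AdjoinRoot (cycPoly s) ≃ₗ[K] (Fin (cycPoly s).natDegree → K) :=
    (AdjoinRoot.powerBasis' (cycPoly_monic s)).basis.equivFun
  refine ⟨toV 0 (cycPoly s).natDegree ∘ₗ (e : AdjoinRoot (cycPoly s) →ₗ[K] _),
    LinearMap.ker (pr 0 (cycPoly s).natDegree), ?_, ⟨?_, ?_⟩, ?_, ?_⟩
  · exact (toV_injective 0 _).comp e.injective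
  · rw [Submodule.disjoint_def]
    rintro _ ⟨x, rfl⟩ hx
    rw [LinearMap.mem_ker, LinearMap.comp_apply, pr_toV] at hx
    rw [LinearMap.comp_apply, hx, map_zero]
  · rw [codisjoint_iff, eq_top_iff]
    intro v _
    rw [Submodule.mem_sup]
    refine ⟨toV 0 (cycPoly s).natDegree (pr 0 (cycPoly s).natDegree v),
      ⟨e.symm (pr 0 (cycPoly s).natDegree v), ?_⟩,
      v - toV 0 (cycPoly s).natDegree (pr 0 (cycPoly s).natDegree v), ?_, by abel⟩
    · rw [LinearMap.comp_apply, LinearEquiv.coe_coe, e.apply_symm_apply]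
    · rw [LinearMap.mem_ker, map_sub, pr_toV, sub_self]
  · intro x
    change toV 0 _ (e (AdjoinRoot.root (cycPoly s) * x)) = blockMap _ _ (toV 0 _ (e x))
    rw [blockMap_apply, pr_toV, ← map_add]
    congr 1
    have : companion (cycPoly s) (cycPoly_monic s) (cycPoly_coprime s) (e x) =
        e (AdjoinRoot.root (cycPoly s) * x) := by
      rw [companion]
      change e (rootAut (cycPoly s) (cycPoly_coprime s) (e.symm (e x))) = _
      rw [e.symm_apply_apply, rootAut_apply]
    rw [this]
    abel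
  · intro u hu
    change blockMap _ _ u = u
    rw [LinearMap.mem_ker] at hu
    rw [blockMap_apply, hu, map_zero, sub_zero, map_zero, add_zero]

lemma IsSingleCycle.conj {s : CycleIndex K} {g : GInf K} (h : IsSingleCycle s g) (k : GInf K) :
    IsSingleCycle s (k * g * k⁻¹) := by
  obtain ⟨φ, U, h1, h2, h3, h4⟩ := h
  have key : ∀ v, (k * g * k⁻¹).lin (k.lin v) = k.lin (g.lin v) := by
    intro v
    have h5 : (k * g * k⁻¹).sub * k.sub = k.sub * g.sub := by
      change (k.sub * g.sub * (k.sub)⁻¹) * k.sub = k.sub * g.sub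
      group
    have h6 := congrArg (fun t : GLInf K => (t : V K ≃ₗ[K] V K) v) h5
    exact h6
  let e : V K ≃ₗ[K] V K := (k.sub : V K ≃ₗ[K] V K)
  have hk : k.lin = (e : V K →ₗ[K] V K) := rfl
  refine ⟨k.lin ∘ₗ φ, U.map k.lin, ?_, ?_, ?_, ?_⟩
  · rw [hk]
    exact e.injective.comp h1
  · rw [LinearMap.range_comp, hk]
    exact (Submodule.orderIsoMapComap e).isCompl h2
  · intro x
    rw [LinearMap.comp_apply, LinearMap.comp_apply, h3, key]
  · rintro _ ⟨u, hu, rfl⟩
    rw [key, h4 u hu]

lemma isSingleCycle_iff (s : CycleIndex K) (g : GInf K) :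
    IsSingleCycle s g ↔ IsConj (cycElt s) g := by
  constructor
  · intro h
    exact isConj_of_type (hasType_of_isSingleCycle (isSingleCycle_cycElt s))
      (hasType_of_isSingleCycle h)
  · intro h
    obtain ⟨k, rfl⟩ := isConj_iff.1 h
    exact (isSingleCycle_cycElt s).conj k

variable [Finite K]

lemma mul_table (x y z : GInf K) :
    coeffs (classElt (ConjClasses.mk x.sub) * classElt (ConjClasses.mk y.sub))
      (ConjClasses.mk z.sub) =
    open Classical in if rlen z = rlen x + rlen y then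
      (Nat.card {p : GInf K × GInf K // IsConj x p.1 ∧ IsConj y p.2 ∧ p.1 * p.2 = z} : ℤ)
      else 0 := by
  classical
  rw [classElt_mul]
  by_cases h : rlen z = rlen x + rlen y
  · rw [if_pos h]
    have h1 : coeffs (basisMul (ConjClasses.mk x.sub) (ConjClasses.mk y.sub))
        (ConjClasses.mk z.sub) =
        (structConst (ConjClasses.mk x.sub) (ConjClasses.mk y.sub) (ConjClasses.mk z.sub) : ℤ) :=
      if_pos (by rw [clen_mk, clen_mk, clen_mk]; exact h)
    rw [h1, structConst_mk _ _ _ (by rw [clen_mk, clen_mk]; exact h)]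
    congr 1
    apply Nat.card_congr
    refine Equiv.subtypeEquivRight ?_
    rintro ⟨c, d⟩
    rw [ConjClasses.mk_eq_mk_iff_isConj, ConjClasses.mk_eq_mk_iff_isConj]
    constructor
    · rintro ⟨⟨h2, h3⟩, h4, h5⟩
      exact ⟨h4.symm, h5.symm, h2⟩
    · rintro ⟨h4, h5, h2⟩
      refine ⟨⟨h2, ?_⟩, h4.symm, h5.symm⟩
      have e1 : len c = len x.sub := (len_eq_of_isConj h4).symm
      have e2 : len d = len y.sub := (len_eq_of_isConj h5).symm
      change len c + len d = len z.sub
      rw [e1, e2]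
      exact h.symm
  · rw [if_neg h]
    exact if_neg (by rw [clen_mk, clen_mk, clen_mk]; exact h)

/-- The basis `K_C`, indexed by the conjugacy classes of `GInf K`. -/
noncomputable def gBasis (K : Type) [Field K] [Finite K] :
    Basis (ConjClasses (GInf K)) ℤ (StableCenter K) := zBasis K

open Classical in
theorem final (hq : 2 < Nat.card K) :
    ∃ (R : Type) (_ : CommRing R) (b : Basis (ConjClasses (GInf K)) ℤ R)
      (c : CycleIndex K → GInf K),
      (∀ x y z : GInf K,
        b.repr (b (ConjClasses.mk x) * b (ConjClasses.mk y)) (ConjClasses.mk z) =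
          if rlen z = rlen x + rlen y then
            (Nat.card {p : GInf K × GInf K // IsConj x p.1 ∧ IsConj y p.2 ∧ p.1 * p.2 = z} : ℤ)
          else 0) ∧
      (∀ s g, IsSingleCycle s g ↔ IsConj (c s) g) ∧
      Function.Bijective
        (MvPolynomial.aeval (fun s : CycleIndex K => (1 : ℚ) ⊗ₜ[ℤ] b (ConjClasses.mk (c s))) :
          MvPolynomial (CycleIndex K) ℚ →ₐ[ℚ] ℚ ⊗[ℤ] R) := by
  refine ⟨StableCenter K, inferInstance, gBasis K, cycElt, ?_, isSingleCycle_iff, ?_⟩
  · intro x y z
    have h1 : ∀ g : GInf K, gBasis K (ConjClasses.mk g) = classElt (ConjClasses.mk g.sub) :=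
      fun g => zBasis_apply _
    rw [h1, h1]
    exact mul_table x y z
  · have h2 : (fun s : CycleIndex K => (1 : ℚ) ⊗ₜ[ℤ] gBasis K (ConjClasses.mk (cycElt s))) =
        fun s => (1 : ℚ) ⊗ₜ[ℤ] classElt (cycleClass s) := by
      funext s
      congr 1
    rw [h2]
    exact genMap_bijective hq

end Pool.Agent.Lib.MP_02a407_al
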