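import Pool.Agent.Lib.MP_02a407_al.Poly

/-!
# Kernel dimensions as invariants of types
-/

namespace Pool.Agent.Lib.MP_02a407_al

open Module Polynomial

variable {K : Type} [Field K]

section

variable {M N : Type} [AddCommGroup M] [Module K M] [AddCommGroup N] [Module K N]

lemma aeval_intertwine (φ : M →ₗ[K] M) (χ : N →ₗ[K] N) (ψ : M →ₗ[K] N)
    (h : ∀ x, ψ (φ x) = χ (ψ x)) (Q : K[X]) (x : M) :
    ψ (aeval φ Q x) = aeval χ Q (ψ x) := by
  induction Q using Polynomial.induction_on' generalizing x with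
  | add p q hp hq => simp only [map_add, LinearMap.add_apply, hp, hq]
  | monomial n a =>
    have hpow : ∀ (n : ℕ) (x : M), ψ ((φ ^ n) x) = (χ ^ n) (ψ x) := by
      intro n
      induction n with
      | zero => intro x; simp
      | succ n ih =>
        intro x
        rw [pow_succ, pow_succ, Module.End.mul_apply, Module.End.mul_apply, ih, h]
    rw [aeval_monomial, aeval_monomial, Module.End.mul_apply, Module.End.mul_apply,
      Module.algebraMap_end_apply, Module.algebraMap_end_apply, map_smul, hpow]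

/-- The dimension of the kernel of `Q(A)`. -/
noncomputable def kdim (Q : K[X]) (A : M ≃ₗ[K] M) : ℕ :=
  finrank K (LinearMap.ker (aeval (A : M →ₗ[K] M) Q))

lemma kdim_congr (Q : K[X]) {A : M ≃ₗ[K] M} {B : N ≃ₗ[K] N} (e : M ≃ₗ[K] N)
    (he : ∀ x, e (A x) = B (e x)) : kdim Q A = kdim Q B := by
  have h := aeval_intertwine (A : M →ₗ[K] M) (B : N →ₗ[K] N) (e : M →ₗ[K] N) he Q
  have h2 : (LinearMap.ker (aeval (A : M →ₗ[K] M) Q)).map (e : M →ₗ[K] N) =
      LinearMap.ker (aeval (B : N →ₗ[K] N) Q) := by
    ext y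
    constructor
    · rintro ⟨x, hx, rfl⟩
      rw [LinearMap.mem_ker, ← h, hx, map_zero]
    · intro hy
      refine ⟨e.symm y, ?_, by simp⟩
      rw [SetLike.mem_coe, LinearMap.mem_ker]
      apply e.injective
      have := h (e.symm y)
      rw [LinearEquiv.coe_coe, e.apply_symm_apply] at this
      rw [this, map_zero]
      exact hy
  rw [kdim, kdim, ← h2]
  exact (LinearEquiv.finrank_map_eq e _).symm

lemma kdim_prod [FiniteDimensional K M] [FiniteDimensional K N] (Q : K[X]) (A : M ≃ₗ[K] M)
    (B : N ≃ₗ[K] N) : kdim Q (prodAut A B) = kdim Q A + kdim Q B := by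
  have h1 := aeval_intertwine (prodAut A B : M × N →ₗ[K] M × N) (A : M →ₗ[K] M)
    (LinearMap.fst K M N) (fun x => rfl) Q
  have h2 := aeval_intertwine (prodAut A B : M × N →ₗ[K] M × N) (B : N →ₗ[K] N)
    (LinearMap.snd K M N) (fun x => rfl) Q
  have h3 : LinearMap.ker (aeval (prodAut A B : M × N →ₗ[K] M × N) Q) =
      (LinearMap.ker (aeval (A : M →ₗ[K] M) Q)).prod (LinearMap.ker (aeval (B : N →ₗ[K] N) Q)) := by
    ext p
    rw [Submodule.mem_prod, LinearMap.mem_ker, LinearMap.mem_ker, LinearMap.mem_ker, Prod.ext_iff]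
    have a1 := h1 p
    have a2 := h2 p
    rw [LinearMap.fst_apply, LinearMap.fst_apply] at a1
    rw [LinearMap.snd_apply, LinearMap.snd_apply] at a2
    rw [a1, a2]
    rfl
  rw [kdim, h3, kdim, kdim, ← Module.finrank_prod]
  exact LinearEquiv.finrank_eq (LinearEquiv.ofLinearMap
    (LinearMap.prod ((LinearMap.fst K M N ∘ₗ Submodule.subtype _).codRestrict _ (fun x => x.2.1))
      ((LinearMap.snd K M N ∘ₗ Submodule.subtype _).codRestrict _ (fun x => x.2.2)))
    (LinearMap.codRestrict _ (LinearMap.prodMap (Submodule.subtype _) (Submodule.subtype _))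
      (fun x => ⟨x.1.2, x.2.2⟩)) (by ext <;> rfl) (by ext <;> rfl))

end

lemma kdim_ofType (Q : K[X]) {M : Type} [AddCommGroup M] [Module K M] [FiniteDimensional K M]
    (A : M ≃ₗ[K] M) : kdim Q (cA (ofType A)) = kdim Q A := by
  obtain ⟨e, he⟩ := ofType_iso (ofType_cA (ofType A))
  exact kdim_congr Q e he

/-- The kernel dimension as an additive function of the class. -/
noncomputable def kd (Q : K[X]) : Cls K →+ ℕ where
  toFun C := kdim Q (cA C)
  map_zero' := by
    rw [cls_zero, mk_one_eq, kdim_ofType, kdim]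
    exact finrank_zero_of_subsingleton
  map_add' C D := by
    rw [cls_add]
    exact (kdim_ofType Q (prodAut (cA C) (cA D))).trans (kdim_prod Q _ _)

lemma kd_ofType (Q : K[X]) {M : Type} [AddCommGroup M] [Module K M] [FiniteDimensional K M]
    (A : M ≃ₗ[K] M) : kd Q (ofType A) = kdim Q A := kdim_ofType Q A

lemma aeval_rootAut (P : K[X]) (h : IsCoprime X P) (Q : K[X]) (x : AdjoinRoot P) :
    aeval (rootAut P h : AdjoinRoot P →ₗ[K] AdjoinRoot P) Q x = AdjoinRoot.mk P Q * x := by
  have h1 : (rootAut P h : AdjoinRoot P →ₗ[K] AdjoinRoot P) =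
      Algebra.lmul K (AdjoinRoot P) (AdjoinRoot.root P) := by
    ext; rfl
  rw [h1, Polynomial.aeval_algHom_apply, AdjoinRoot.aeval_eq]
  rfl

lemma kdim_coprime (P : K[X]) (h : IsCoprime X P) (Q : K[X]) (hQ : IsCoprime Q P) :
    kdim Q (rootAut P h) = 0 := by
  have : LinearMap.ker (aeval (rootAut P h : AdjoinRoot P →ₗ[K] AdjoinRoot P) Q) = ⊥ := by
    rw [LinearMap.ker_eq_bot']
    intro x hx
    rw [aeval_rootAut] at hx
    obtain ⟨a, rfl⟩ := AdjoinRoot.mk_surjective x
    rw [← map_mul, AdjoinRoot.mk_eq_zero] at hx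
    rw [AdjoinRoot.mk_eq_zero]
    exact hQ.symm.dvd_of_dvd_mul_left hx
  rw [kdim, this, finrank_bot]

lemma kdim_pow (f : K[X]) (hf : Irreducible f) (r j : ℕ) (h : IsCoprime X (f ^ r)) :
    kdim (f ^ j) (rootAut (f ^ r) h) = f.natDegree * min j r := by
  have hf0 : f ≠ 0 := hf.ne_zero
  set a := min j r with ha
  have har : a ≤ r := min_le_right _ _
  have hdvd : f ^ r ∣ f ^ (r - a) * f ^ a := by rw [← pow_add, Nat.sub_add_cancel har]
  have hinj : ∀ b, f ^ r ∣ f ^ (r - a) * b → f ^ a ∣ b := by
    intro b hb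
    rw [← Nat.sub_add_cancel har, pow_add] at hb
    rw [Nat.add_sub_cancel] at hb
    exact (mul_dvd_mul_iff_left (pow_ne_zero _ hf0)).1 hb
  have key : LinearMap.ker (aeval (rootAut (f ^ r) h : AdjoinRoot (f ^ r) →ₗ[K] AdjoinRoot (f ^ r))
      (f ^ j)) = LinearMap.range (mulMap (f ^ a) (f ^ r) (f ^ (r - a)) hdvd) := by
    ext x
    obtain ⟨b, rfl⟩ := AdjoinRoot.mk_surjective x
    rw [LinearMap.mem_ker, aeval_rootAut, ← map_mul, AdjoinRoot.mk_eq_zero]
    constructor
    · intro hb
      have : f ^ (r - a) ∣ b := by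
        rcases le_total j r with hjr | hjr
        · rw [min_eq_left hjr] at ha
          rw [ha]
          have hr : f ^ r = f ^ j * f ^ (r - j) := by rw [← pow_add, Nat.add_sub_cancel' hjr]
          rw [hr] at hb
          exact (mul_dvd_mul_iff_left (pow_ne_zero _ hf0)).1 hb
        · rw [min_eq_right hjr] at ha
          rw [ha, Nat.sub_self, pow_zero]
          exact one_dvd _
      obtain ⟨c, rfl⟩ := this
      exact ⟨AdjoinRoot.mk _ c, mulMap_mk _ _ _ _ _⟩
    · rintro ⟨y, hy⟩
      obtain ⟨c, rfl⟩ := AdjoinRoot.mk_surjective y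
      rw [mulMap_mk, AdjoinRoot.mk_eq_mk] at hy
      have h1 : f ^ r ∣ f ^ j * (f ^ (r - a) * c) := by
        rw [← mul_assoc, ← pow_add]
        refine Dvd.dvd.mul_right (pow_dvd_pow f ?_) c
        omega
      have h2 : f ^ r ∣ f ^ j * (f ^ (r - a) * c - b) := Dvd.dvd.mul_left hy _
      have h3 := dvd_sub h1 h2
      rwa [← mul_sub, sub_sub_cancel] at h3
  have : FiniteDimensional K (AdjoinRoot (f ^ a)) :=
    finiteDimensional_adjoinRoot (pow_ne_zero _ hf0)
  rw [kdim, key, LinearMap.finrank_range_of_inj (mulMap_injective _ _ _ _ hinj),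
    finrank_adjoinRoot (pow_ne_zero _ hf0), natDegree_pow, mul_comm]

lemma kd_cycleClass (s : CycleIndex K) (t : CycleIndex K) (j : ℕ) [Decidable (s.f = t.f)] :
    kd (t.f ^ j) (cycleClass s : Cls K) = if s.f = t.f then t.f.natDegree * min j s.r else 0 := by
  rw [cycleClass_eq, kd_ofType]
  split_ifs with h
  · rw [← h]
    exact kdim_pow _ s.irred _ _ _
  · apply kdim_coprime
    apply IsCoprime.pow
    rw [Irreducible.coprime_iff_not_dvd t.irred]
    intro hd
    exact h (eq_of_monic_of_associated t.monic s.monic (t.irred.associated_of_dvd s.irred hd)).symm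

@[ext] lemma CycleIndex.ext' {s t : CycleIndex K} (h1 : s.f = t.f) (h2 : s.r = t.r) : s = t := by
  cases s; cases t; simp only at h1 h2; subst h1; subst h2; rfl

/-- A single cycle class, as an element of the monoid of classes. -/
noncomputable def cyc (s : CycleIndex K) : Cls K := cycleClass s

/-- The map from multisets of single cycle classes to classes. -/
noncomputable def theta (K : Type) [Field K] : (CycleIndex K →₀ ℕ) →+ Cls K :=
  Finsupp.liftAddHom (fun s => multiplesHom (Cls K) (cyc s))

lemma theta_single (s : CycleIndex K) (n : ℕ) :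
    theta K (Finsupp.single s n) = n • cyc s := by
  simp [theta]

lemma theta_apply (μ : CycleIndex K →₀ ℕ) :
    theta K μ = μ.sum (fun s n => n • cyc s) := rfl

lemma theta_injective : Function.Injective (theta K) := by
  classical
  intro μ ν h
  have key : ∀ (t : CycleIndex K) (ρ : CycleIndex K →₀ ℕ), ∀ j,
      kd (t.f ^ j) (theta K ρ) = t.f.natDegree *
        ρ.sum (fun s n => n * (if s.f = t.f then min j s.r else 0)) := by
    intro t ρ j
    rw [theta_apply, Finsupp.sum, map_sum, Finsupp.sum, Finset.mul_sum]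
    apply Finset.sum_congr rfl
    intro s _
    rw [map_nsmul, cyc, kd_cycleClass, smul_eq_mul]
    split_ifs
    · ring
    · simp
  have hsum : ∀ (t : CycleIndex K) (ρ : CycleIndex K →₀ ℕ),
      2 * ρ.sum (fun s n => n * (if s.f = t.f then min t.r s.r else 0)) =
      ρ.sum (fun s n => n * (if s.f = t.f then min (t.r - 1) s.r else 0)) +
      ρ.sum (fun s n => n * (if s.f = t.f then min (t.r + 1) s.r else 0)) + ρ t := by
    intro t ρ
    have hρ : ρ t = ρ.sum (fun s n => n * (if s = t then 1 else 0)) := by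
      rw [Finsupp.sum]
      by_cases ht : t ∈ ρ.support
      · rw [Finset.sum_eq_single t]
        · simp
        · intro b _ hb; simp [hb]
        · intro hb; exact absurd ht hb
      · rw [Finset.sum_eq_zero]
        · exact Finsupp.notMem_support_iff.1 ht
        · intro b hb
          have : b ≠ t := fun h => ht (h ▸ hb)
          simp [this]
    rw [hρ, Finsupp.sum, Finsupp.sum, Finsupp.sum, Finsupp.sum, Finset.mul_sum,
      ← Finset.sum_add_distrib, ← Finset.sum_add_distrib]
    apply Finset.sum_congr rfl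
    intro s _
    by_cases hst : s = t
    · subst hst
      have := s.pos
      simp only [if_true, min_self]
      have h1 : min (s.r - 1) s.r = s.r - 1 := by omega
      have h2 : min (s.r + 1) s.r = s.r := by omega
      rw [h1, h2]
      obtain ⟨r, hr⟩ : ∃ r, s.r = r + 1 := ⟨s.r - 1, by omega⟩
      rw [hr]
      simp only [Nat.add_sub_cancel]
      ring
    · by_cases hf : s.f = t.f
      · have hr : s.r ≠ t.r := fun hr => hst (CycleIndex.ext' hf hr)
        simp only [hf, if_true, if_neg hst, mul_zero, add_zero]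
        rw [← mul_add]
        have := t.pos
        have h3 : min (t.r - 1) s.r + min (t.r + 1) s.r = 2 * min t.r s.r := by omega
        rw [h3]; ring
      · simp [hf, hst]
  ext t
  have hdeg : 0 < t.f.natDegree := t.irred.natDegree_pos
  have e1 : ∀ j, μ.sum (fun s n => n * (if s.f = t.f then min j s.r else 0)) =
      ν.sum (fun s n => n * (if s.f = t.f then min j s.r else 0)) := by
    intro j
    have h1 := key t μ j
    have h2 := key t ν j
    rw [h] at h1
    rw [h1] at h2
    exact Nat.eq_of_mul_eq_mul_left hdeg h2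
  have a1 := hsum t μ
  have a2 := hsum t ν
  rw [e1, e1, e1] at a1
  omega

end Pool.Agent.Lib.MP_02a407_al
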