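import Mathlib

/-!
# A graded integral matrix congruent to the identity is invertible over `ℚ`
-/

namespace Pool.Agent.Lib.MP_02a407_al

open Module

lemma det_ne_zero_of_congr {n : Type} [Fintype n] [DecidableEq n] (m : ℕ) (hm : 2 ≤ m)
    (M : Matrix n n ℤ) (h : ∀ i j, (m : ℤ) ∣ M i j - (1 : Matrix n n ℤ) i j) :
    (M.map (Int.cast : ℤ → ℚ)).det ≠ 0 := by
  have h1 : M.map (Int.castRingHom (ZMod m)) = 1 := by
    ext i j
    have h2 := (ZMod.intCast_zmod_eq_zero_iff_dvd _ m).2 (h i j)
    rw [Int.cast_sub, sub_eq_zero] at h2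
    rw [Matrix.map_apply, eq_intCast, h2]
    by_cases hij : i = j
    · subst hij; simp
    · simp [hij]
  have h2 : (Int.castRingHom (ZMod m)) M.det = 1 := by
    rw [RingHom.map_det, RingHom.mapMatrix_apply, h1, Matrix.det_one]
  have h3 : M.det ≠ 0 := by
    intro h0
    rw [h0, map_zero] at h2
    have : Nontrivial (ZMod m) := by
      have : Fact (1 < m) := ⟨by omega⟩
      infer_instance
    exact zero_ne_one h2
  have h4 : (M.map (Int.cast : ℤ → ℚ)).det = ((M.det : ℤ) : ℚ) := by
    have := (RingHom.map_det (Int.castRingHom ℚ) M).symm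
    rw [RingHom.mapMatrix_apply] at this
    exact this
  rw [h4]
  exact_mod_cast h3

theorem bijective_of_congr {ι V W : Type} [AddCommGroup V] [Module ℚ V] [AddCommGroup W]
    [Module ℚ W] (v : Basis ι ℚ V) (w : Basis ι ℚ W) (Ψ : V →ₗ[ℚ] W) (d : ι → ℕ)
    (hd : ∀ n, {i | d i = n}.Finite) (m : ℕ) (hm : 2 ≤ m) (c : ι → ℚ) (hc : ∀ i, c i ≠ 0)
    (T : ι → ι → ℤ) (hT1 : ∀ i j, T i j ≠ 0 → d i = d j)
    (hT2 : ∀ i j, i = j → (m : ℤ) ∣ T i j - 1) (hT3 : ∀ i j, i ≠ j → (m : ℤ) ∣ T i j)
    (h : ∀ i j, w.repr (Ψ (v i)) j = c i * T i j) : Function.Bijective Ψ := by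
  classical
  have hfin : ∀ n, Finite {i // d i = n} := fun n => hd n
  have hft : ∀ n, Nonempty (Fintype {i // d i = n}) := fun n => ⟨Fintype.ofFinite _⟩
  let ft : ∀ n, Fintype {i // d i = n} := fun n => (hft n).some
  let Mz : ∀ n, Matrix {i // d i = n} {i // d i = n} ℤ := fun n => Matrix.of (fun i j => T i j)
  let M : ∀ n, Matrix {i // d i = n} {i // d i = n} ℚ := fun n => (Mz n).map (Int.cast : ℤ → ℚ)
  have hM : ∀ n i j, M n i j = T i j := fun n i j => rfl
  have hdet : ∀ n, (M n).det ≠ 0 := by
    intro n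
    apply det_ne_zero_of_congr m hm
    intro i j
    by_cases hij : i = j
    · subst hij
      rw [Matrix.one_apply_eq]
      exact hT2 _ _ rfl
    · rw [Matrix.one_apply_ne hij, sub_zero]
      exact hT3 _ _ (fun h => hij (Subtype.ext h))
  constructor
  · rw [injective_iff_map_eq_zero]
    intro x hx
    have hx1 : ∀ j, ∑ i ∈ (v.repr x).support, (v.repr x i * c i) * T i j = 0 := by
      intro j
      have h1 : x = ∑ i ∈ (v.repr x).support, v.repr x i • v i := by
        conv_lhs => rw [← v.linearCombination_repr x, Finsupp.linearCombination_apply, Finsupp.sum]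
      have h2 : w.repr (Ψ x) j = ∑ i ∈ (v.repr x).support, v.repr x i * (c i * T i j) := by
        conv_lhs => rw [h1]
        rw [map_sum, map_sum, Finsupp.finsetSum_apply]
        apply Finset.sum_congr rfl
        intro i _
        rw [map_smul, map_smul, Finsupp.smul_apply, h, smul_eq_mul]
      rw [hx, map_zero, Finsupp.zero_apply] at h2
      rw [h2]
      apply Finset.sum_congr rfl
      intro i _
      ring
    have hx2 : ∀ n, (fun i : {i // d i = n} => v.repr x i * c i) = 0 := by
      intro n
      apply Matrix.eq_zero_of_vecMul_eq_zero (hdet n)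
      ext j
      rw [Matrix.vecMul, dotProduct, Pi.zero_apply, ← hx1 j]
      have h3 : ∑ i ∈ (v.repr x).support, (v.repr x i * c i) * T i j =
          ∑ i ∈ (hd n).toFinset, (v.repr x i * c i) * T i j := by
        have h4 : ∑ i ∈ (v.repr x).support, (v.repr x i * c i) * T i j =
            ∑ i ∈ (v.repr x).support ∪ (hd n).toFinset, (v.repr x i * c i) * T i j := by
          apply Finset.sum_subset Finset.subset_union_left
          intro i _ hi
          rw [Finsupp.notMem_support_iff] at hi
          rw [hi]; ring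
        rw [h4]
        symm
        apply Finset.sum_subset Finset.subset_union_right
        intro i _ hi
        rw [Set.Finite.mem_toFinset] at hi
        have : T i j = 0 := by
          by_contra h0
          exact hi ((hT1 _ _ h0).trans j.2)
        rw [this]; simp
      rw [h3]
      refine Finset.sum_bij' (fun i _ => i.1) (fun i hi => ⟨i, by
        rwa [Set.Finite.mem_toFinset] at hi⟩) ?_ ?_ ?_ ?_ ?_
      · intro i _
        rw [Set.Finite.mem_toFinset]; exact i.2
      · intro i _; exact Finset.mem_univ _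
      · intro i _; rfl
      · intro i _; rfl
      · intro i _; rw [hM]
    have hx3 : v.repr x = 0 := by
      ext i
      have := congrFun (hx2 (d i)) ⟨i, rfl⟩
      simp only [Pi.zero_apply] at this
      rcases mul_eq_zero.1 this with h5 | h5
      · exact h5
      · exact absurd h5 (hc i)
    exact v.repr.map_eq_zero_iff.1 hx3
  · rw [← LinearMap.range_eq_top, eq_top_iff, ← w.span_eq, Submodule.span_le]
    rintro _ ⟨j, rfl⟩
    set n := d j with hn
    let j' : {i // d i = n} := ⟨j, rfl⟩
    refine ⟨∑ i : {i // d i = n}, ((M n)⁻¹ j' i * (c i)⁻¹) • v i, ?_⟩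
    apply w.repr.injective
    ext k
    rw [map_sum, map_sum, Finsupp.finsetSum_apply, w.repr_self, Finsupp.single_apply]
    have h1 : ∀ i : {i // d i = n}, (w.repr (Ψ (((M n)⁻¹ j' i * (c i)⁻¹) • v i))) k =
        (M n)⁻¹ j' i * T i k := by
      intro i
      rw [map_smul, map_smul, Finsupp.smul_apply, h, smul_eq_mul]
      have := hc i
      field_simp
    rw [Finset.sum_congr rfl (fun i _ => h1 i)]
    by_cases hk : d k = n
    · have h2 : ∑ i : {i // d i = n}, (M n)⁻¹ j' i * T i k = ((M n)⁻¹ * M n) j' ⟨k, hk⟩ := by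
        rw [Matrix.mul_apply]
        exact Finset.sum_congr rfl (fun i _ => by rw [hM])
      rw [h2, Matrix.nonsing_inv_mul _ (isUnit_iff_ne_zero.2 (hdet n))]
      by_cases hjk : j = k
      · subst hjk
        rw [if_pos rfl]
        exact Matrix.one_apply_eq _
      · rw [if_neg hjk]
        exact Matrix.one_apply_ne (fun h => hjk (congrArg Subtype.val h))
    · rw [if_neg (fun h' => hk (by rw [← h'])), Finset.sum_eq_zero]
      intro i _
      have : T i k = 0 := by
        by_contra h0
        exact hk ((hT1 _ _ h0).symm.trans i.2)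
      rw [this]; simp

end Pool.Agent.Lib.MP_02a407_al
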