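import Pool.Agent.Lib.MP_02a407_al.Congr
import Pool.Agent.Lib.MP_02a407_al.LinAlg

/-!
# The polynomiality of `ℚ ⊗ 𝒢(q)` for `q > 2`
-/

namespace Pool.Agent.Lib.MP_02a407_al

open Module TensorProduct

variable {K : Type} [Field K]

/-- the basis `K_C` of the stable center -/
noncomputable def zBasis (K : Type) [Field K] [Finite K] : Basis (Cls K) ℤ (StableCenter K) :=
  Basis.ofRepr
    { toFun := fun x => (coeffs x : ConjClasses (GLInf K) →₀ ℤ)
      invFun := fun x => (x : ConjClasses (GLInf K) →₀ ℤ)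
      map_add' := fun _ _ => rfl
      map_smul' := fun n x => by
        apply Finsupp.ext
        intro E
        exact coeffs_smul n x E
      left_inv := fun _ => rfl
      right_inv := fun _ => rfl }

variable [Finite K]

lemma zBasis_apply (C : Cls K) : zBasis K C = classElt (C : ConjClasses (GLInf K)) := by
  apply (zBasis K).repr.injective
  rw [Basis.repr_self]
  rfl

/-- the order of the centralizer of the type, as a rational number -/
noncomputable def cz (C : Cls K) : ℚ := (cent (cA (C : ConjClasses (GLInf K))) : ℚ)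

lemma cent_ne (C : Cls K) : cz C ≠ 0 := by
  have := cent_pos (cA (C : ConjClasses (GLInf K)))
  rw [cz]
  positivity

/-- The basis `1 ⊗ kc (θ μ)` of `ℚ ⊗ 𝒢`. -/
noncomputable def wBasis (K : Type) [Field K] [Finite K] :
    Basis (CycleIndex K →₀ ℕ) ℚ (ℚ ⊗[ℤ] StableCenter K) :=
  ((Algebra.TensorProduct.basis ℚ (zBasis K)).isUnitSMul
    (fun C => isUnit_iff_ne_zero.2 (cent_ne C))).reindex (thetaEquiv K).symm.toEquiv

lemma one_tmul_zsmul (n : ℤ) (x : StableCenter K) :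
    (1 : ℚ) ⊗ₜ[ℤ] (n • x) = (n : ℚ) • ((1 : ℚ) ⊗ₜ[ℤ] x) := by
  rw [TensorProduct.tmul_smul, ← Int.cast_smul_eq_zsmul ℚ]

lemma one_tmul_kc (C : Cls K) : (1 : ℚ) ⊗ₜ[ℤ] kc C =
    cz C • ((1 : ℚ) ⊗ₜ[ℤ] classElt (C : ConjClasses (GLInf K))) := by
  rw [kc, one_tmul_zsmul, Int.cast_natCast]
  rfl

lemma wBasis_apply (μ : CycleIndex K →₀ ℕ) :
    wBasis K μ = (1 : ℚ) ⊗ₜ[ℤ] kc (theta K μ) := by
  rw [wBasis, Basis.reindex_apply, Basis.isUnitSMul_apply, Algebra.TensorProduct.basis_apply,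
    zBasis_apply, one_tmul_kc]
  rfl

/-- integrality and homogeneity of the coordinates of an element of the lattice -/
lemma coord_Lat {n : ℕ} {y : StableCenter K} (hy : y ∈ Lat K n) (ν : CycleIndex K →₀ ℕ) :
    ∃ t : ℤ, (wBasis K).repr ((1 : ℚ) ⊗ₜ[ℤ] y) ν = t ∧ (t ≠ 0 → cl (theta K ν) = n) := by
  classical
  induction hy using Submodule.span_induction with
  | mem x hx =>
    obtain ⟨C, hC, rfl⟩ := hx
    obtain ⟨μ, rfl⟩ := theta_surjective C
    rw [← wBasis_apply, Basis.repr_self]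
    by_cases h : μ = ν
    · subst h
      exact ⟨1, by simp, fun _ => hC⟩
    · exact ⟨0, by simp [h], fun h => absurd rfl h⟩
  | zero => exact ⟨0, by simp, fun h => absurd rfl h⟩
  | add a b _ _ ha hb =>
    obtain ⟨s, hs, hs'⟩ := ha
    obtain ⟨t, ht, ht'⟩ := hb
    refine ⟨s + t, ?_, fun h => ?_⟩
    · rw [TensorProduct.tmul_add, map_add, Finsupp.add_apply, hs, ht, Int.cast_add]
    · by_cases hs0 : s = 0
      · apply ht'
        rintro rfl
        exact h (by rw [hs0, add_zero])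
      · exact hs' hs0
  | smul c a _ ha =>
    obtain ⟨s, hs, hs'⟩ := ha
    refine ⟨c * s, ?_, fun h => hs' (right_ne_zero_of_mul h)⟩
    rw [one_tmul_zsmul, map_smul, Finsupp.smul_apply, hs, smul_eq_mul, Int.cast_mul]

lemma coord_Good {μ : CycleIndex K →₀ ℕ} {x : StableCenter K} (hx : Good (theta K μ) x)
    (ν : CycleIndex K →₀ ℕ) :
    ∃ t : ℤ, (wBasis K).repr ((1 : ℚ) ⊗ₜ[ℤ] x) ν = t ∧
      (t ≠ 0 → cl (theta K μ) = cl (theta K ν)) ∧
      (μ = ν → ((Nat.card K - 1 : ℕ) : ℤ) ∣ t - 1) ∧ (μ ≠ ν → ((Nat.card K - 1 : ℕ) : ℤ) ∣ t) := by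
  classical
  have hq : 1 ≤ Nat.card K := Nat.card_pos
  obtain ⟨y, hy, rfl⟩ := hx
  obtain ⟨s, hs, hs'⟩ := coord_Lat hy ν
  rw [TensorProduct.tmul_add, one_tmul_zsmul, ← wBasis_apply, map_add, map_smul,
    Finsupp.add_apply, Finsupp.smul_apply, hs, Basis.repr_self, smul_eq_mul]
  by_cases h : μ = ν
  · subst h
    refine ⟨1 + ((Nat.card K : ℤ) - 1) * s, ?_, fun _ => rfl, fun _ => ?_, fun h => absurd rfl h⟩
    · rw [Finsupp.single_eq_same]; push_cast; ring
    · rw [add_sub_cancel_left]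
      push_cast [hq]
      exact Dvd.intro _ rfl
  · refine ⟨((Nat.card K : ℤ) - 1) * s, ?_, fun h0 => ?_, fun h' => absurd h' h, fun _ => ?_⟩
    · rw [Finsupp.single_apply, if_neg h]; push_cast; ring
    · exact (hs' (right_ne_zero_of_mul h0)).symm
    · push_cast [hq]
      exact Dvd.intro _ rfl

lemma kc_cyc (s : CycleIndex K) : (1 : ℚ) ⊗ₜ[ℤ] classElt (cycleClass s) =
    (cz (cyc s))⁻¹ • ((1 : ℚ) ⊗ₜ[ℤ] kc (cyc s)) := by
  rw [one_tmul_kc, smul_smul, inv_mul_cancel₀ (cent_ne _), one_smul]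
  rfl

/-- The homomorphism from the polynomial ring to `ℚ ⊗ 𝒢` which sends the variables to the single
cycle class elements. -/
noncomputable def genMap (K : Type) [Field K] [Finite K] :
    MvPolynomial (CycleIndex K) ℚ →ₐ[ℚ] ℚ ⊗[ℤ] StableCenter K :=
  MvPolynomial.aeval (fun s => (1 : ℚ) ⊗ₜ[ℤ] classElt (cycleClass s))

lemma genMap_monomial (μ : CycleIndex K →₀ ℕ) :
    genMap K (MvPolynomial.monomial μ 1) =
      (μ.prod (fun s n => ((cz (cyc s))⁻¹) ^ n)) •
        ((1 : ℚ) ⊗ₜ[ℤ] (μ.prod (fun s n => kc (cyc s) ^ n))) := by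
  rw [genMap, MvPolynomial.aeval_monomial, map_one, one_mul]
  have h1 : (1 : ℚ) ⊗ₜ[ℤ] (μ.prod (fun s n => kc (cyc s) ^ n)) =
      μ.prod (fun s n => ((1 : ℚ) ⊗ₜ[ℤ] kc (cyc s)) ^ n) := by
    have := map_prod (Algebra.TensorProduct.includeRight :
      StableCenter K →ₐ[ℤ] ℚ ⊗[ℤ] StableCenter K) (fun s => kc (cyc s) ^ (μ s)) μ.support
    simp only [map_pow, Algebra.TensorProduct.includeRight_apply] at this
    exact this
  rw [h1, Finsupp.prod, Finsupp.prod, Finsupp.prod, ← Finset.prod_smul]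
  apply Finset.prod_congr rfl
  intro s _
  rw [kc_cyc, smul_pow]

theorem genMap_bijective (hq : 2 < Nat.card K) : Function.Bijective (genMap K) := by
  have hex := fun (μ ν : CycleIndex K →₀ ℕ) => coord_Good (good_monomial μ) ν
  choose T hT using hex
  refine bijective_of_congr (MvPolynomial.basisMonomials (CycleIndex K) ℚ) (wBasis K)
    (genMap K).toLinearMap (fun μ => cl (theta K μ)) ?_ (Nat.card K - 1) (by omega)
    (fun μ => μ.prod (fun s n => ((cz (cyc s))⁻¹) ^ n)) ?_ T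
    (fun μ ν => (hT μ ν).2.1) (fun μ ν => (hT μ ν).2.2.1) (fun μ ν => (hT μ ν).2.2.2) ?_
  · intro n
    exact Set.Finite.preimage theta_injective.injOn (finite_classes (K := K) n)
  · intro μ
    rw [Finsupp.prod, Finset.prod_ne_zero_iff]
    intro s _
    exact pow_ne_zero _ (inv_ne_zero (cent_ne (cyc s)))
  · intro μ ν
    rw [MvPolynomial.coe_basisMonomials, AlgHom.toLinearMap_apply, genMap_monomial, map_smul,
      Finsupp.smul_apply, (hT μ ν).1, smul_eq_mul]

end Pool.Agent.Lib.MP_02a407_al
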