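import Pool.Agent.Lib.MP_02a407_al.Classes

section

/-!
# Counting additive factorizations
-/

namespace Pool.Agent.Lib.MP_02a407_al

open Module

lemma card_dvd_of_free {G α : Type} [Group G] [MulAction G α] [Finite G] [Finite α]
    (h : ∀ (g : G) (a : α), g • a = a → g = 1) : Nat.card G ∣ Nat.card α := by
  classical
  have := Fintype.ofFinite (MulAction.orbitRel.Quotient G α)
  rw [Nat.card_congr (MulAction.selfEquivSigmaOrbitsQuotientStabilizer G α), Nat.card_sigma]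
  apply Finset.dvd_sum
  intro ω _
  have hs : MulAction.stabilizer G ω.out = ⊥ := by
    rw [eq_bot_iff]
    intro g hg
    exact h g _ hg
  rw [hs]
  have : Nat.card (G ⧸ (⊥ : Subgroup G)) = Nat.card G := Subgroup.index_bot
  rw [this]

variable {K : Type} [Field K]

lemma finiteDimensional_of_range {M U : Type} [AddCommGroup M] [Module K M] [AddCommGroup U]
    [Module K U] (α : M →ₗ[K] U) (h : Function.Injective α)
    [FiniteDimensional K (LinearMap.range α)] : FiniteDimensional K M :=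
  Module.Finite.equiv (LinearEquiv.ofInjective α h).symm

section cent

variable {M : Type} [AddCommGroup M] [Module K M] {N : Type} [AddCommGroup N] [Module K N]

/-- The number of automorphisms of `(M, A)`. -/
noncomputable def cent (A : M ≃ₗ[K] M) : ℕ := Nat.card {u : M ≃ₗ[K] M // ∀ x, u (A x) = A (u x)}

lemma cent_iso {A : M ≃ₗ[K] M} {B : N ≃ₗ[K] N} (e : M ≃ₗ[K] N) (he : ∀ x, e (A x) = B (e x)) :
    cent A = cent B := by
  have he' : ∀ y, e.symm (B y) = A (e.symm y) := by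
    intro y
    apply e.injective
    rw [e.apply_symm_apply, he, e.apply_symm_apply]
  apply Nat.card_congr
  exact
    { toFun := fun u => ⟨(e.symm.trans u.1).trans e, fun y => by
        simp only [LinearEquiv.trans_apply, he', u.2, he]⟩
      invFun := fun u => ⟨(e.trans u.1).trans e.symm, fun y => by
        simp only [LinearEquiv.trans_apply, he, u.2, he']⟩
      left_inv := fun u => by
        apply Subtype.ext
        ext x
        simp
      right_inv := fun u => by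
        apply Subtype.ext
        ext x
        simp }

lemma finite_linearEquiv [Finite K] [FiniteDimensional K M] : Finite (M ≃ₗ[K] M) := by
  have : Finite M := Module.finite_of_finite K
  exact Finite.of_injective (fun u : M ≃ₗ[K] M => (u : M → M)) DFunLike.coe_injective

lemma finite_linearMap [Finite K] [FiniteDimensional K M] [FiniteDimensional K N] :
    Finite (M →ₗ[K] N) := by
  have : Finite M := Module.finite_of_finite K
  have : Finite N := Module.finite_of_finite K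
  exact Finite.of_injective (fun u : M →ₗ[K] N => (u : M → N)) DFunLike.coe_injective

lemma cent_pos [Finite K] [FiniteDimensional K M] (A : M ≃ₗ[K] M) : 0 < cent A := by
  have := finite_linearEquiv (K := K) (M := M)
  have : Nonempty {u : M ≃ₗ[K] M // ∀ x, u (A x) = A (u x)} :=
    ⟨⟨LinearEquiv.refl K M, fun _ => rfl⟩⟩
  exact Nat.card_pos

variable {U : Type} [AddCommGroup U] [Module K U]

lemma card_Emb {A : M ≃ₗ[K] M} {g : U ≃ₗ[K] U} (h : HasType A g) :
    Nat.card (Emb A g) = cent A := by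
  obtain ⟨α, hα⟩ := h
  have hα1 := hα.1
  have hα2 := hα.2.1
  have hα3 := hα.2.2
  symm
  apply Nat.card_congr
  refine Equiv.ofBijective (fun u => ⟨α ∘ₗ u.1.toLinearMap, hα1.comp u.1.injective, ?_, ?_⟩)
    ⟨?_, ?_⟩
  · rw [LinearMap.range_comp, LinearEquiv.range, Submodule.map_top, hα2]
  · intro x
    simp only [LinearMap.comp_apply, LinearEquiv.coe_coe, u.2, hα3]
  · intro u v huv
    apply Subtype.ext
    ext x
    apply hα1
    have := LinearMap.congr_fun (congrArg Subtype.val huv) x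
    exact this
  · rintro ⟨β, h1, h2, h3⟩
    let e1 := LinearEquiv.ofInjective β h1
    let e2 := LinearEquiv.ofInjective α hα1
    let e3 : LinearMap.range β ≃ₗ[K] LinearMap.range α := LinearEquiv.ofEq _ _ (h2.trans hα2.symm)
    have key : ∀ x, α (((e1.trans e3).trans e2.symm) x) = β x := by
      intro x
      have : (e2 (e2.symm (e3 (e1 x))) : U) = β x := by
        rw [LinearEquiv.apply_symm_apply]; rfl
      exact this
    refine ⟨⟨(e1.trans e3).trans e2.symm, fun x => ?_⟩, ?_⟩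
    · apply hα1
      rw [key, h3, hα3, key]
    · apply Subtype.ext
      ext x
      exact key x

end cent

/-- The number of automorphisms of the type of `g`. -/
noncomputable def centG {U : Type} [AddCommGroup U] [Module K U] (g : U ≃ₗ[K] U) : ℕ :=
  cent (M := LinearMap.range (D g)) (restr g)

section pair

variable {M₁ M₂ : Type} [AddCommGroup M₁] [Module K M₁] [AddCommGroup M₂] [Module K M₂]

/-- The automorphism `[[A, X], [0, 1]] [[1, 0], [Y, S]]` of `M₁ × M₂`. -/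
def pairMap (A : M₁ ≃ₗ[K] M₁) (S : M₂ ≃ₗ[K] M₂) (X : M₂ →ₗ[K] M₁) (Y : M₁ →ₗ[K] M₂) :
    (M₁ × M₂) ≃ₗ[K] (M₁ × M₂) where
  toFun p := (A p.1 + X (Y p.1 + S p.2), Y p.1 + S p.2)
  map_add' p q := by
    ext
    · simp only [Prod.fst_add, Prod.snd_add, map_add]; abel
    · simp only [Prod.fst_add, Prod.snd_add, map_add]; abel
  map_smul' c p := by
    ext
    · simp only [Prod.smul_fst, Prod.smul_snd, map_smul, RingHom.id_apply, smul_add, map_add]
    · simp only [Prod.smul_fst, Prod.smul_snd, map_smul, RingHom.id_apply, smul_add]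
  invFun p := (A.symm (p.1 - X p.2), S.symm (p.2 - Y (A.symm (p.1 - X p.2))))
  left_inv p := by
    ext
    · simp
    · simp
  right_inv p := by
    ext
    · simp
    · simp

@[simp] lemma pairMap_apply (A : M₁ ≃ₗ[K] M₁) (S : M₂ ≃ₗ[K] M₂) (X : M₂ →ₗ[K] M₁)
    (Y : M₁ →ₗ[K] M₂) (p : M₁ × M₂) :
    pairMap A S X Y p = (A p.1 + X (Y p.1 + S p.2), Y p.1 + S p.2) := rfl

lemma pairMap_inj {A : M₁ ≃ₗ[K] M₁} {S : M₂ ≃ₗ[K] M₂} {X X' : M₂ →ₗ[K] M₁}
    {Y Y' : M₁ →ₗ[K] M₂} (h : pairMap A S X Y = pairMap A S X' Y') : X = X' ∧ Y = Y' := by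
  have h1 : ∀ p, pairMap A S X Y p = pairMap A S X' Y' p := fun p => by rw [h]
  constructor
  · ext x
    obtain ⟨y, rfl⟩ := S.surjective x
    have := congrArg Prod.fst (h1 (0, y))
    simpa using this
  · ext x
    have := congrArg Prod.snd (h1 (x, 0))
    simpa using this

/-- embeddings for some pair `(X, Y)` -/
def Gam (A : M₁ ≃ₗ[K] M₁) (S : M₂ ≃ₗ[K] M₂) (e : V K ≃ₗ[K] V K) :
    Set ((M₁ × M₂) →ₗ[K] V K) :=
  {γ | ∃ X Y, γ ∈ Emb (pairMap A S X Y) e}

lemma emb_unique {M : Type} [AddCommGroup M] [Module K M] {B B' : M ≃ₗ[K] M}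
    {U : Type} [AddCommGroup U] [Module K U] {g : U ≃ₗ[K] U} {α : M →ₗ[K] U}
    (h : α ∈ Emb B g) (h' : α ∈ Emb B' g) : B = B' := by
  ext x
  apply h.1
  rw [h.2.2, h'.2.2]

lemma finite_Emb [Finite K] {M : Type} [AddCommGroup M] [Module K M] [FiniteDimensional K M]
    (A : M ≃ₗ[K] M) (g : GLInf K) : Finite (Emb A (g : V K ≃ₗ[K] V K)) := by
  by_cases h : HasType A (g : V K ≃ₗ[K] V K)
  · apply Nat.finite_of_card_ne_zero
    rw [card_Emb h]
    exact (cent_pos A).ne'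
  · have : Emb A (g : V K ≃ₗ[K] V K) = ∅ := Set.not_nonempty_iff_eq_empty.1 h
    rw [this]
    infer_instance

lemma card_Gam [Finite K] [FiniteDimensional K M₁] [FiniteDimensional K M₂]
    (A : M₁ ≃ₗ[K] M₁) (S : M₂ ≃ₗ[K] M₂) (e : GLInf K) :
    Nat.card (Gam A S (e : V K ≃ₗ[K] V K)) =
      Nat.card {p : (M₂ →ₗ[K] M₁) × (M₁ →ₗ[K] M₂) //
        HasType (pairMap A S p.1 p.2) (e : V K ≃ₗ[K] V K)} *
      centG (e : V K ≃ₗ[K] V K) := by
  classical
  have f1 := finite_linearMap (K := K) (M := M₂) (N := M₁)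
  have f2 := finite_linearMap (K := K) (M := M₁) (N := M₂)
  have f3 : ∀ p : (M₂ →ₗ[K] M₁) × (M₁ →ₗ[K] M₂),
    Finite (Emb (pairMap A S p.1 p.2) (e : V K ≃ₗ[K] V K)) := fun p => finite_Emb _ e
  have := Fintype.ofFinite {p : (M₂ →ₗ[K] M₁) × (M₁ →ₗ[K] M₂) //
        HasType (pairMap A S p.1 p.2) (e : V K ≃ₗ[K] V K)}
  have key : Gam A S (e : V K ≃ₗ[K] V K) ≃
      Σ p : {p : (M₂ →ₗ[K] M₁) × (M₁ →ₗ[K] M₂) //
        HasType (pairMap A S p.1 p.2) (e : V K ≃ₗ[K] V K)},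
        Emb (pairMap A S p.1.1 p.1.2) (e : V K ≃ₗ[K] V K) := by
    symm
    refine Equiv.ofBijective (fun q => ⟨q.2.1, q.1.1.1, q.1.1.2, q.2.2⟩) ⟨?_, ?_⟩
    · rintro ⟨⟨⟨X, Y⟩, h⟩, ⟨γ, hγ⟩⟩ ⟨⟨⟨X', Y'⟩, h'⟩, ⟨γ', hγ'⟩⟩ heq
      have h1 : γ = γ' := congrArg Subtype.val heq
      subst h1
      obtain ⟨h2, h3⟩ := pairMap_inj (emb_unique hγ hγ')
      simp only at h2 h3
      subst h2 h3
      rfl
    · rintro ⟨γ, X, Y, hγ⟩
      exact ⟨⟨⟨(X, Y), γ, hγ⟩, ⟨γ, hγ⟩⟩, rfl⟩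
  rw [Nat.card_congr key, Nat.card_sigma]
  have h1 : ∀ p : {p : (M₂ →ₗ[K] M₁) × (M₁ →ₗ[K] M₂) //
        HasType (pairMap A S p.1 p.2) (e : V K ≃ₗ[K] V K)},
      Nat.card (Emb (pairMap A S p.1.1 p.1.2) (e : V K ≃ₗ[K] V K)) =
        centG (e : V K ≃ₗ[K] V K) := by
    intro p
    rw [card_Emb p.2]
    obtain ⟨u, hu⟩ := p.2.iso (hasType_restr (e : V K ≃ₗ[K] V K))
    exact cent_iso u hu
  rw [Finset.sum_congr rfl (fun p _ => h1 p), Finset.sum_const, smul_eq_mul, Finset.card_univ,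
    Nat.card_eq_fintype_card]

/-- from factorizations to embeddings -/
lemma coprod_mem_Gam {A : M₁ ≃ₗ[K] M₁} {S : M₂ ≃ₗ[K] M₂} {c d e : GLInf K}
    (h : (c, d) ∈ Fact e) {α : M₁ →ₗ[K] V K} {β : M₂ →ₗ[K] V K}
    (hα : α ∈ Emb A (c : V K ≃ₗ[K] V K)) (hβ : β ∈ Emb S (d : V K ≃ₗ[K] V K)) :
    LinearMap.coprod α β ∈ Gam A S (e : V K ≃ₗ[K] V K) := by
  obtain ⟨h1, h2⟩ := h
  simp only at h1 h2
  subst h1
  obtain ⟨hr, hd⟩ := additive_range (c := (c : V K ≃ₗ[K] V K)) (d := (d : V K ≃ₗ[K] V K)) h2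
  obtain ⟨b, -, hb2, -⟩ := exists_factor hα
  obtain ⟨b', -, hb2', -⟩ := exists_factor hβ
  refine ⟨b ∘ₗ β, b' ∘ₗ α, ?_, ?_, ?_⟩
  · rw [← LinearMap.ker_eq_bot, LinearMap.ker_eq_bot']
    rintro ⟨x, y⟩ hxy
    rw [LinearMap.coprod_apply] at hxy
    simp only at hxy
    have h3 : α x ∈ LinearMap.range (D (c : V K ≃ₗ[K] V K)) := by rw [← hα.2.1]; exact ⟨x, rfl⟩
    have h4 : α x ∈ LinearMap.range (D (d : V K ≃ₗ[K] V K)) := by
      rw [← hβ.2.1]; exact ⟨-y, by rw [map_neg]; exact (eq_neg_of_add_eq_zero_left hxy).symm⟩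
    have h5 := Submodule.disjoint_def.1 hd _ h3 h4
    have h6 : β y = 0 := by rw [h5, zero_add] at hxy; exact hxy
    rw [Prod.mk_eq_zero]
    exact ⟨hα.1 (by rw [h5, map_zero]), hβ.1 (by rw [h6, map_zero])⟩
  · rw [LinearMap.range_coprod, hα.2.1, hβ.2.1]
    exact hr.symm
  · rintro ⟨x, y⟩
    have e1 : (d : V K ≃ₗ[K] V K) (α x) = α x + β (b' (α x)) := by
      rw [hb2', D_apply]; abel
    have e2 : ∀ z, (c : V K ≃ₗ[K] V K) (β z) = β z + α (b (β z)) := by
      intro z; rw [hb2, D_apply]; abel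
    rw [pairMap_apply, LinearMap.coprod_apply, LinearMap.coprod_apply]
    simp only [LinearMap.comp_apply]
    rw [Subgroup.coe_mul, LinearEquiv.mul_apply, map_add (d : V K ≃ₗ[K] V K), e1, ← hβ.2.2,
      add_assoc, ← map_add, map_add (c : V K ≃ₗ[K] V K), e2, ← hα.2.2, map_add α]
    abel

/-- from embeddings to factorizations -/
lemma exists_fact_of_mem_Gam {A : M₁ ≃ₗ[K] M₁} {S : M₂ ≃ₗ[K] M₂}
    {e : GLInf K} {γ : (M₁ × M₂) →ₗ[K] V K} (h : γ ∈ Gam A S (e : V K ≃ₗ[K] V K)) :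
    ∃ c d : GLInf K, (c, d) ∈ Fact e ∧
      γ ∘ₗ LinearMap.inl K M₁ M₂ ∈ Emb A (c : V K ≃ₗ[K] V K) ∧
      γ ∘ₗ LinearMap.inr K M₁ M₂ ∈ Emb S (d : V K ≃ₗ[K] V K) := by
  obtain ⟨X, Y, hγ⟩ := h
  obtain ⟨b, hb1, hb2, hb3⟩ := exists_factor hγ
  set α := γ ∘ₗ LinearMap.inl K M₁ M₂ with hα
  set β := γ ∘ₗ LinearMap.inr K M₁ M₂ with hβ
  have hγαβ : ∀ x y, γ (x, y) = α x + β y := by
    intro x y
    rw [hα, hβ, LinearMap.comp_apply, LinearMap.comp_apply, LinearMap.inl_apply,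
      LinearMap.inr_apply, ← map_add, Prod.mk_add_mk, add_zero, zero_add]
  have hαinj : Function.Injective α := hγ.1.comp (LinearMap.inl_injective : Function.Injective (LinearMap.inl K M₁ M₂))
  have hβinj : Function.Injective β := hγ.1.comp (LinearMap.inr_injective : Function.Injective (LinearMap.inr K M₁ M₂))
  have hbα : ∀ x, b (α x) = (A x + X (Y x) - x, Y x) := by
    intro x
    have := hb3 (x, 0)
    rw [pairMap_apply] at this
    simpa [hα] using this
  have hbβ : ∀ y, b (β y) = (X (S y), S y - y) := by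
    intro y
    have := hb3 (0, y)
    rw [pairMap_apply] at this
    simpa [hβ] using this
  let d0 : V K ≃ₗ[K] V K := mkAut S β (LinearMap.snd K M₁ M₂ ∘ₗ b) (fun y => by
    rw [LinearMap.comp_apply, hbβ]; rfl)
  have hd0 : ∀ v, d0 v = v + β (b v).2 := fun v => rfl
  have hdmem : d0 ∈ GLInf K := by
    obtain ⟨n, hn⟩ := mem_GLInf.1 e.2
    refine ⟨n, fun i hi => ⟨?_, fun v => ?_⟩⟩
    · have h1 : γ (b (Finsupp.single i 1)) = 0 := by
        rw [hb2, D_apply, (hn i hi).1, sub_self]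
      have h2 : b (Finsupp.single i 1) = 0 := hγ.1 (by rw [h1, map_zero])
      rw [hd0, h2, Prod.snd_zero, map_zero, add_zero]
    · rw [hd0, Finsupp.add_apply]
      have h1 : β (b v).2 ∈ LinearMap.range (D (e : V K ≃ₗ[K] V K)) := by
        rw [← hγ.2.1]; exact ⟨(0, (b v).2), rfl⟩
      rw [hn.range_le h1 i hi, add_zero]
  let d : GLInf K := ⟨d0, hdmem⟩
  have hsnd : Function.Surjective (LinearMap.snd K M₁ M₂ ∘ₗ b) := by
    intro y
    obtain ⟨v, hv⟩ := hb1 (0, y)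
    exact ⟨v, by rw [LinearMap.comp_apply, hv]; rfl⟩
  have hfst : Function.Surjective (LinearMap.fst K M₁ M₂ ∘ₗ b) := by
    intro x
    obtain ⟨v, hv⟩ := hb1 (x, 0)
    exact ⟨v, by rw [LinearMap.comp_apply, hv]; rfl⟩
  have hdE : β ∈ Emb S d0 := mem_Emb_mkAut _ _ _ _ hβinj hsnd
  let c : GLInf K := e * d⁻¹
  have hcd : c * d = e := by simp only [c]; rw [inv_mul_cancel_right]
  have hcdv : ∀ v, (c : V K ≃ₗ[K] V K) (d0 v) = (e : V K ≃ₗ[K] V K) v := by
    intro v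
    have : ((c * d : GLInf K) : V K ≃ₗ[K] V K) v = (e : V K ≃ₗ[K] V K) v := by rw [hcd]
    exact this
  have hDc : ∀ v, D (c : V K ≃ₗ[K] V K) (d0 v) = α (b v).1 := by
    intro v
    have h1 := hb2 v
    rw [D_apply, ← Prod.mk.eta (p := b v), hγαβ] at h1
    rw [D_apply, hcdv, hd0, sub_add_eq_sub_sub, ← h1]
    simp
  have hrc : LinearMap.range α = LinearMap.range (D (c : V K ≃ₗ[K] V K)) := by
    apply le_antisymm
    · rintro _ ⟨x, rfl⟩
      obtain ⟨v, rfl⟩ := hfst x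
      exact ⟨d0 v, hDc v⟩
    · rintro _ ⟨w, rfl⟩
      obtain ⟨v, rfl⟩ := d0.surjective w
      rw [hDc]
      exact ⟨_, rfl⟩
  have hcβ : ∀ y, (c : V K ≃ₗ[K] V K) (β y) = β y + α (X y) := by
    intro y
    have h1 : d0 (β (S.symm y)) = β y := by
      rw [← hdE.2.2, S.apply_symm_apply]
    have h2 := hDc (β (S.symm y))
    rw [h1, D_apply, hbβ, S.apply_symm_apply] at h2
    rw [← h2]; abel
  have hcα : ∀ x, (c : V K ≃ₗ[K] V K) (α x) = α (A x) := by
    intro x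
    have h1 : d0 (α x) = α x + β (Y x) := by rw [hd0, hbα]
    have h2 := hcdv (α x)
    rw [h1, map_add, hcβ] at h2
    have h3 : (e : V K ≃ₗ[K] V K) (α x) = α (A x) + α (X (Y x)) + β (Y x) := by
      have := hγ.2.2 (x, 0)
      rw [pairMap_apply, hγαβ, hγαβ] at this
      simp only [map_zero, add_zero, map_add] at this
      exact this.symm
    rw [h3] at h2
    have h4 : (c : V K ≃ₗ[K] V K) (α x) =
      (c : V K ≃ₗ[K] V K) (α x) + (β (Y x) + α (X (Y x))) - (β (Y x) + α (X (Y x))) := by abel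
    rw [h4, h2]; abel
  refine ⟨c, d, ⟨hcd, ?_⟩, ⟨hαinj, hrc, fun x => (hcα x).symm⟩, hdE⟩
  have l1 : len c = finrank K M₁ := by
    rw [len_eq, ← hrc, LinearMap.finrank_range_of_inj hαinj]
  have l2 : len d = finrank K M₂ := by
    rw [len_eq]
    change finrank K (LinearMap.range (D d0)) = _
    rw [← hdE.2.1, LinearMap.finrank_range_of_inj hβinj]
  have l3 : len e = finrank K (M₁ × M₂) := by
    rw [len_eq, ← hγ.2.1, LinearMap.finrank_range_of_inj hγ.1]
  have : FiniteDimensional K M₁ := by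
    have : FiniteDimensional K (LinearMap.range α) := by rw [hrc]; infer_instance
    exact finiteDimensional_of_range α hαinj
  have : FiniteDimensional K M₂ := by
    have : FiniteDimensional K (LinearMap.range β) := by
      rw [hdE.2.1]; exact finiteDimensional_range d
    exact finiteDimensional_of_range β hβinj
  simp only
  rw [l1, l2, l3, Module.finrank_prod]

lemma card_Gam' [Finite K] (A : M₁ ≃ₗ[K] M₁) (S : M₂ ≃ₗ[K] M₂) (e : GLInf K) :
    Nat.card (Gam A S (e : V K ≃ₗ[K] V K)) =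
      Nat.card {p : GLInf K × GLInf K // p ∈ Fact e ∧ HasType A (p.1 : V K ≃ₗ[K] V K) ∧
        HasType S (p.2 : V K ≃ₗ[K] V K)} * (cent A * cent S) := by
  classical
  have hfin : Finite {p : GLInf K × GLInf K // p ∈ Fact e ∧ HasType A (p.1 : V K ≃ₗ[K] V K) ∧
        HasType S (p.2 : V K ≃ₗ[K] V K)} :=
    ((finite_Fact e).subset (fun p hp => hp.1)).to_subtype
  have := Fintype.ofFinite {p : GLInf K × GLInf K // p ∈ Fact e ∧
    HasType A (p.1 : V K ≃ₗ[K] V K) ∧ HasType S (p.2 : V K ≃ₗ[K] V K)}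
  have key : (Σ p : {p : GLInf K × GLInf K // p ∈ Fact e ∧ HasType A (p.1 : V K ≃ₗ[K] V K) ∧
        HasType S (p.2 : V K ≃ₗ[K] V K)}, Emb A (p.1.1 : V K ≃ₗ[K] V K) ×
          Emb S (p.1.2 : V K ≃ₗ[K] V K)) ≃ Gam A S (e : V K ≃ₗ[K] V K) := by
    refine Equiv.ofBijective (fun q => ⟨LinearMap.coprod q.2.1.1 q.2.2.1,
      coprod_mem_Gam (c := q.1.1.1) (d := q.1.1.2) q.1.2.1 q.2.1.2 q.2.2.2⟩) ⟨?_, ?_⟩
    · rintro ⟨⟨⟨c, d⟩, h1, h2⟩, ⟨α, hα⟩, ⟨β, hβ⟩⟩ ⟨⟨⟨c', d'⟩, h1', h2'⟩, ⟨α', hα'⟩, ⟨β', hβ'⟩⟩ heq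
      simp only [Subtype.mk.injEq] at heq
      have ha : α = α' := by
        ext1 x
        have := LinearMap.congr_fun heq (x, 0)
        simpa using this
      have hb : β = β' := by
        ext1 x
        have := LinearMap.congr_fun heq (0, x)
        simpa using this
      subst ha hb
      simp only at hα hα' hβ hβ'
      have hr := hα.2.1.symm.trans hα'.2.1
      have hr' := hβ.2.1.symm.trans hβ'.2.1
      have e1 : c * d = e := h1.1
      have e1' : c' * d' = e := h1'.1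
      obtain ⟨-, hdisj⟩ := additive_range (c := (c : V K ≃ₗ[K] V K)) (d := (d : V K ≃ₗ[K] V K))
        (by have := h1.2; simp only at this; rw [← e1] at this; exact this)
      have hdd : d = d' := by
        apply Subtype.ext
        ext1 v
        have s1 : D (e : V K ≃ₗ[K] V K) v = D (c : V K ≃ₗ[K] V K) ((d : V K ≃ₗ[K] V K) v) +
            D (d : V K ≃ₗ[K] V K) v := by
          rw [← D_mul_apply, ← e1]; rfl
        have s2 : D (e : V K ≃ₗ[K] V K) v = D (c' : V K ≃ₗ[K] V K) ((d' : V K ≃ₗ[K] V K) v) +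
            D (d' : V K ≃ₗ[K] V K) v := by
          rw [← D_mul_apply, ← e1']; rfl
        have s3 : D (d : V K ≃ₗ[K] V K) v - D (d' : V K ≃ₗ[K] V K) v ∈
            LinearMap.range (D (c : V K ≃ₗ[K] V K)) := by
          have : D (d : V K ≃ₗ[K] V K) v - D (d' : V K ≃ₗ[K] V K) v =
              D (c' : V K ≃ₗ[K] V K) ((d' : V K ≃ₗ[K] V K) v) -
                D (c : V K ≃ₗ[K] V K) ((d : V K ≃ₗ[K] V K) v) := by
            rw [s1] at s2
            rw [sub_eq_sub_iff_add_eq_add, add_comm, s2]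
          rw [this]
          apply Submodule.sub_mem
          · rw [hr]; exact ⟨_, rfl⟩
          · exact ⟨_, rfl⟩
        have s4 : D (d : V K ≃ₗ[K] V K) v - D (d' : V K ≃ₗ[K] V K) v ∈
            LinearMap.range (D (d : V K ≃ₗ[K] V K)) := by
          apply Submodule.sub_mem
          · exact ⟨_, rfl⟩
          · rw [hr']; exact ⟨_, rfl⟩
        have s5 := Submodule.disjoint_def.1 hdisj _ s3 s4
        rw [D_apply, D_apply] at s5
        have s6 : (d : V K ≃ₗ[K] V K) v - (d' : V K ≃ₗ[K] V K) v = 0 := by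
          rw [← s5]; abel
        exact sub_eq_zero.1 s6
      subst hdd
      have hcc : c = c' := by
        have : c * d = c' * d := e1.trans e1'.symm
        exact mul_right_cancel this
      subst hcc
      rfl
    · rintro ⟨γ, hγ⟩
      obtain ⟨c, d, h1, h2, h3⟩ := exists_fact_of_mem_Gam hγ
      refine ⟨⟨⟨(c, d), h1, ⟨_, h2⟩, ⟨_, h3⟩⟩, ⟨_, h2⟩, ⟨_, h3⟩⟩, ?_⟩
      apply Subtype.ext
      exact LinearMap.coprod_comp_inl_inr γ
  have hfin1 : ∀ p : {p : GLInf K × GLInf K // p ∈ Fact e ∧ HasType A (p.1 : V K ≃ₗ[K] V K) ∧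
        HasType S (p.2 : V K ≃ₗ[K] V K)}, Nat.card (Emb A (p.1.1 : V K ≃ₗ[K] V K) ×
          Emb S (p.1.2 : V K ≃ₗ[K] V K)) = cent A * cent S := by
    intro p
    rw [Nat.card_prod, card_Emb p.2.2.1, card_Emb p.2.2.2]
  by_cases hne : Nonempty {p : GLInf K × GLInf K // p ∈ Fact e ∧
    HasType A (p.1 : V K ≃ₗ[K] V K) ∧ HasType S (p.2 : V K ≃ₗ[K] V K)}
  · obtain ⟨p0⟩ := hne
    have hA : FiniteDimensional K M₁ := by
      obtain ⟨α, hα⟩ := p0.2.2.1
      have : FiniteDimensional K (LinearMap.range α) := by rw [hα.2.1]; infer_instance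
      exact finiteDimensional_of_range α hα.1
    have hS : FiniteDimensional K M₂ := by
      obtain ⟨α, hα⟩ := p0.2.2.2
      have : FiniteDimensional K (LinearMap.range α) := by rw [hα.2.1]; infer_instance
      exact finiteDimensional_of_range α hα.1
    have hfin2 : ∀ p : {p : GLInf K × GLInf K // p ∈ Fact e ∧
        HasType A (p.1 : V K ≃ₗ[K] V K) ∧ HasType S (p.2 : V K ≃ₗ[K] V K)},
        Finite (Emb A (p.1.1 : V K ≃ₗ[K] V K) × Emb S (p.1.2 : V K ≃ₗ[K] V K)) := by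
      intro p
      have := finite_Emb A p.1.1
      have := finite_Emb S p.1.2
      infer_instance
    rw [← Nat.card_congr key, Nat.card_sigma, Finset.sum_congr rfl (fun p _ => hfin1 p),
      Finset.sum_const, smul_eq_mul, Finset.card_univ, Nat.card_eq_fintype_card]
  · rw [not_nonempty_iff] at hne
    have h1 : Nat.card {p : GLInf K × GLInf K // p ∈ Fact e ∧
      HasType A (p.1 : V K ≃ₗ[K] V K) ∧ HasType S (p.2 : V K ≃ₗ[K] V K)} = 0 :=
      Nat.card_of_isEmpty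
    rw [h1, zero_mul, ← Nat.card_congr key]
    exact Nat.card_of_isEmpty

/-- The fundamental counting identity. -/
theorem count_identity [Finite K] [FiniteDimensional K M₁] [FiniteDimensional K M₂]
    (A : M₁ ≃ₗ[K] M₁) (S : M₂ ≃ₗ[K] M₂) (e : GLInf K) :
    Nat.card {p : GLInf K × GLInf K // p ∈ Fact e ∧ HasType A (p.1 : V K ≃ₗ[K] V K) ∧
        HasType S (p.2 : V K ≃ₗ[K] V K)} * (cent A * cent S) =
    Nat.card {p : (M₂ →ₗ[K] M₁) × (M₁ →ₗ[K] M₂) //
        HasType (pairMap A S p.1 p.2) (e : V K ≃ₗ[K] V K)} *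
      centG (e : V K ≃ₗ[K] V K) := by
  rw [← card_Gam', card_Gam]

end pair

end Pool.Agent.Lib.MP_02a407_al
end

section

/-!
# The torus action on pairs of off-diagonal blocks
-/

namespace Pool.Agent.Lib.MP_02a407_al

open Module

variable {K : Type} [Field K]

variable {M₁ M₂ : Type} [AddCommGroup M₁] [Module K M₁] [AddCommGroup M₂] [Module K M₂]

lemma pairMap_smul (A : M₁ ≃ₗ[K] M₁) (S : M₂ ≃ₗ[K] M₂) (X : M₂ →ₗ[K] M₁)
    (Y : M₁ →ₗ[K] M₂) (t : Kˣ) {e : V K ≃ₗ[K] V K} (h : HasType (pairMap A S X Y) e) :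
    HasType (pairMap A S (t • X) (t⁻¹ • Y)) e := by
  let δ : (M₁ × M₂) ≃ₗ[K] (M₁ × M₂) :=
    (LinearEquiv.smulOfUnit t⁻¹).prodCongr (LinearEquiv.refl K M₂)
  have hδ : ∀ p, δ p = (t⁻¹ • p.1, p.2) := fun p => rfl
  refine h.of_iso δ ?_
  rintro ⟨x, y⟩
  rw [hδ, hδ, pairMap_apply, pairMap_apply]
  simp only [LinearMap.smul_apply, Units.smul_def, map_smul, map_add, smul_add]
  ext
  · simp only [smul_smul, Units.inv_mul, one_smul]
  · rfl

/-- The set of nonzero pairs of given type. -/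
def NZ (A : M₁ ≃ₗ[K] M₁) (S : M₂ ≃ₗ[K] M₂) (e : V K ≃ₗ[K] V K) : Type :=
  {p : (M₂ →ₗ[K] M₁) × (M₁ →ₗ[K] M₂) // p ≠ 0 ∧ HasType (pairMap A S p.1 p.2) e}

instance (A : M₁ ≃ₗ[K] M₁) (S : M₂ ≃ₗ[K] M₂) (e : V K ≃ₗ[K] V K) :
    MulAction Kˣ (NZ A S e) where
  smul t p := ⟨(t • p.1.1, t⁻¹ • p.1.2), by
    refine ⟨fun h => p.2.1 ?_, pairMap_smul A S _ _ t p.2.2⟩
    rw [Prod.mk_eq_zero] at h
    apply Prod.ext
    · have := congrArg (fun z => t⁻¹ • z) h.1
      simpa using this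
    · have := congrArg (fun z => t • z) h.2
      simpa using this⟩
  one_smul p := by
    apply Subtype.ext
    change ((1 : Kˣ) • p.1.1, (1 : Kˣ)⁻¹ • p.1.2) = p.1
    rw [inv_one, one_smul, one_smul]
  mul_smul s t p := by
    apply Subtype.ext
    change ((s * t) • p.1.1, (s * t)⁻¹ • p.1.2) = (s • t • p.1.1, s⁻¹ • t⁻¹ • p.1.2)
    rw [mul_smul, mul_inv, mul_smul]

lemma dvd_card_NZ [Finite K] [FiniteDimensional K M₁] [FiniteDimensional K M₂]
    (A : M₁ ≃ₗ[K] M₁) (S : M₂ ≃ₗ[K] M₂) (e : V K ≃ₗ[K] V K) :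
    Nat.card K - 1 ∣ Nat.card (NZ A S e) := by
  classical
  have f1 := finite_linearMap (K := K) (M := M₂) (N := M₁)
  have f2 := finite_linearMap (K := K) (M := M₁) (N := M₂)
  have : Finite (NZ A S e) := Subtype.finite
  have := Fintype.ofFinite K
  have hc : Nat.card Kˣ = Nat.card K - 1 := by
    rw [Nat.card_eq_fintype_card, Nat.card_eq_fintype_card, Fintype.card_units]
  rw [← hc]
  apply card_dvd_of_free
  intro t p h
  have h1 : (t • p.1.1, t⁻¹ • p.1.2) = p.1 := congrArg Subtype.val h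
  have h2 : t • p.1.1 = p.1.1 := congrArg Prod.fst h1
  have h3 : t⁻¹ • p.1.2 = p.1.2 := congrArg Prod.snd h1
  by_contra ht
  apply p.2.1
  have ht' : (t : K) - 1 ≠ 0 := by
    intro h0
    apply ht
    apply Units.ext
    rw [sub_eq_zero] at h0
    exact h0
  apply Prod.ext
  · have : ((t : K) - 1) • p.1.1 = 0 := by
      rw [sub_smul, one_smul, sub_eq_zero]; exact h2
    exact (smul_eq_zero.1 this).resolve_left ht'
  · have h4 : p.1.2 = t • p.1.2 := by
      conv_rhs => rw [← h3]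
      rw [smul_inv_smul]
    have : ((t : K) - 1) • p.1.2 = 0 := by
      rw [sub_smul, one_smul, sub_eq_zero]; exact h4.symm
    exact (smul_eq_zero.1 this).resolve_left ht'

/-- The direct sum of two automorphisms. -/
def prodAut (A : M₁ ≃ₗ[K] M₁) (S : M₂ ≃ₗ[K] M₂) : (M₁ × M₂) ≃ₗ[K] (M₁ × M₂) :=
  A.prodCongr S

@[simp] lemma prodAut_apply (A : M₁ ≃ₗ[K] M₁) (S : M₂ ≃ₗ[K] M₂) (p : M₁ × M₂) :
    prodAut A S p = (A p.1, S p.2) := rfl

lemma pairMap_zero (A : M₁ ≃ₗ[K] M₁) (S : M₂ ≃ₗ[K] M₂) : pairMap A S 0 0 = prodAut A S := by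
  ext p <;> simp

open Classical in
/-- The number of pairs of given type modulo `q - 1`. -/
theorem card_pairs [Finite K] [FiniteDimensional K M₁] [FiniteDimensional K M₂]
    (A : M₁ ≃ₗ[K] M₁) (S : M₂ ≃ₗ[K] M₂) (e : V K ≃ₗ[K] V K) :
    ∃ k : ℕ, Nat.card {p : (M₂ →ₗ[K] M₁) × (M₁ →ₗ[K] M₂) //
        HasType (pairMap A S p.1 p.2) e} =
      (if HasType (prodAut A S) e then 1 else 0) + (Nat.card K - 1) * k := by
  have f1 := finite_linearMap (K := K) (M := M₂) (N := M₁)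
  have f2 := finite_linearMap (K := K) (M := M₁) (N := M₂)
  have f3 : Finite (NZ A S e) := Subtype.finite
  obtain ⟨k, hk⟩ := dvd_card_NZ A S e
  refine ⟨k, ?_⟩
  rw [← hk]
  have key : {p : (M₂ →ₗ[K] M₁) × (M₁ →ₗ[K] M₂) // HasType (pairMap A S p.1 p.2) e} ≃
      {p : {p : (M₂ →ₗ[K] M₁) × (M₁ →ₗ[K] M₂) // p = 0} //
        HasType (pairMap A S p.1.1 p.1.2) e} ⊕ NZ A S e :=
    { toFun := fun p => if h : p.1 = 0 then Sum.inl ⟨⟨p.1, h⟩, p.2⟩ else Sum.inr ⟨p.1, h, p.2⟩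
      invFun := fun s => Sum.elim (fun p => ⟨p.1.1, p.2⟩) (fun p => ⟨p.1, p.2.2⟩) s
      left_inv := fun p => by
        by_cases h : p.1 = 0
        · simp only [dif_pos h]; rfl
        · simp only [dif_neg h]; rfl
      right_inv := fun s => by
        rcases s with ⟨⟨p, h⟩, h'⟩ | ⟨p, h, h'⟩
        · simp [h]
        · simp [h] }
  rw [Nat.card_congr key, Nat.card_sum]
  congr 1
  split_ifs with h
  · rw [← pairMap_zero] at h
    rw [Nat.card_eq_one_iff_unique]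
    refine ⟨⟨fun a b => ?_⟩, ⟨⟨⟨0, rfl⟩, h⟩⟩⟩
    apply Subtype.ext
    apply Subtype.ext
    rw [a.1.2, b.1.2]
  · rw [Nat.card_eq_zero]
    left
    refine ⟨fun a => h ?_⟩
    have := a.2
    rw [a.1.2, Prod.fst_zero, Prod.snd_zero, pairMap_zero] at this
    exact this

end Pool.Agent.Lib.MP_02a407_al
end
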