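import Pool.Agent.Lib.MP_02a407_al.Ring
import Pool.Agent.Lib.MP_02a407_al.Torus

/-!
# The monoid of types
-/

namespace Pool.Agent.Lib.MP_02a407_al

open Module

variable {K : Type} [Field K]

section ofType

variable {M : Type} [AddCommGroup M] [Module K M] [FiniteDimensional K M]
  {N : Type} [AddCommGroup N] [Module K N] [FiniteDimensional K N]

/-- The conjugacy class with a given type. -/
noncomputable def ofType (A : M ≃ₗ[K] M) : ConjClasses (GLInf K) :=
  ConjClasses.mk (exists_hasType A).choose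

lemma ofType_eq_mk {A : M ≃ₗ[K] M} {g : GLInf K} (h : HasType A (g : V K ≃ₗ[K] V K)) :
    ofType A = ConjClasses.mk g :=
  ConjClasses.mk_eq_mk_iff_isConj.2 (isConj_of_type (exists_hasType A).choose_spec h)

lemma hasType_of_mk {A : M ≃ₗ[K] M} {g : GLInf K} (h : ConjClasses.mk g = ofType A) :
    HasType A (g : V K ≃ₗ[K] V K) :=
  hasType_of_isConj (exists_hasType A).choose_spec (ConjClasses.mk_eq_mk_iff_isConj.1 h.symm)

lemma hasType_iff_mk {A : M ≃ₗ[K] M} {g : GLInf K} :
    HasType A (g : V K ≃ₗ[K] V K) ↔ ConjClasses.mk g = ofType A :=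
  ⟨fun h => (ofType_eq_mk h).symm, hasType_of_mk⟩

lemma hasType_rep (A : M ≃ₗ[K] M) : HasType A ((rep (ofType A) : GLInf K) : V K ≃ₗ[K] V K) :=
  hasType_of_mk (mk_rep _)

lemma ofType_congr {A : M ≃ₗ[K] M} {B : N ≃ₗ[K] N} (e : M ≃ₗ[K] N)
    (he : ∀ x, e (A x) = B (e x)) : ofType A = ofType B :=
  ofType_eq_mk ((hasType_rep B).of_iso e he) |>.trans (by rw [mk_rep])

lemma ofType_iso {A : M ≃ₗ[K] M} {B : N ≃ₗ[K] N} (h : ofType A = ofType B) :
    ∃ e : M ≃ₗ[K] N, ∀ x, e (A x) = B (e x) := by
  have h1 := hasType_rep A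
  have h2 := hasType_rep B
  rw [h] at h1
  exact h1.iso h2

lemma clen_ofType (A : M ≃ₗ[K] M) : clen (ofType A) = finrank K M :=
  (hasType_rep A).finrank_eq.symm

end ofType

/-- The type of (a representative of) a class. -/
def cM (C : ConjClasses (GLInf K)) : Type :=
  LinearMap.range (D ((rep C : GLInf K) : V K ≃ₗ[K] V K))

noncomputable instance (C : ConjClasses (GLInf K)) : AddCommGroup (cM C) :=
  inferInstanceAs (AddCommGroup (LinearMap.range (D ((rep C : GLInf K) : V K ≃ₗ[K] V K))))

noncomputable instance (C : ConjClasses (GLInf K)) : Module K (cM C) :=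
  inferInstanceAs (Module K (LinearMap.range (D ((rep C : GLInf K) : V K ≃ₗ[K] V K))))

instance (C : ConjClasses (GLInf K)) : FiniteDimensional K (cM C) :=
  inferInstanceAs (FiniteDimensional K (LinearMap.range (D ((rep C : GLInf K) : V K ≃ₗ[K] V K))))

/-- The automorphism of the type of a class. -/
noncomputable def cA (C : ConjClasses (GLInf K)) : cM C ≃ₗ[K] cM C :=
  restr ((rep C : GLInf K) : V K ≃ₗ[K] V K)

lemma hasType_cA (C : ConjClasses (GLInf K)) :
    HasType (cA C) ((rep C : GLInf K) : V K ≃ₗ[K] V K) := hasType_restr _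

@[simp] lemma ofType_cA (C : ConjClasses (GLInf K)) : ofType (cA C) = C := by
  rw [ofType_eq_mk (hasType_cA C), mk_rep]

lemma hasType_cA_iff {C : ConjClasses (GLInf K)} {g : GLInf K} :
    HasType (cA C) (g : V K ≃ₗ[K] V K) ↔ ConjClasses.mk g = C := by
  rw [hasType_iff_mk, ofType_cA]

lemma finrank_cM (C : ConjClasses (GLInf K)) : finrank K (cM C) = clen C := by
  conv_rhs => rw [← ofType_cA C]
  rw [clen_ofType]

/-- Classes of `GL_∞` as a monoid under direct sum of types. -/
def Cls (K : Type) [Field K] : Type := ConjClasses (GLInf K)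

/-- Direct sum of types. -/
noncomputable def dsum (C D : ConjClasses (GLInf K)) : ConjClasses (GLInf K) :=
  ofType (prodAut (cA C) (cA D))

section

variable {M : Type} [AddCommGroup M] [Module K M] [FiniteDimensional K M]
  {N : Type} [AddCommGroup N] [Module K N] [FiniteDimensional K N]

omit [FiniteDimensional K M] [FiniteDimensional K N] in
lemma prodAut_congr {M' N' : Type} [AddCommGroup M'] [Module K M']
    [AddCommGroup N'] [Module K N'] {A : M ≃ₗ[K] M} {B : N ≃ₗ[K] N} {A' : M' ≃ₗ[K] M'}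
    {B' : N' ≃ₗ[K] N'} (e : M ≃ₗ[K] M') (he : ∀ x, e (A x) = A' (e x))
    (f : N ≃ₗ[K] N') (hf : ∀ x, f (B x) = B' (f x)) (p : M × N) :
    (e.prodCongr f) (prodAut A B p) = prodAut A' B' ((e.prodCongr f) p) := by
  simp [he, hf]

lemma dsum_ofType (A : M ≃ₗ[K] M) (B : N ≃ₗ[K] N) :
    dsum (ofType A) (ofType B) = ofType (prodAut A B) := by
  obtain ⟨e, he⟩ := ofType_iso (ofType_cA (ofType A))
  obtain ⟨f, hf⟩ := ofType_iso (ofType_cA (ofType B))
  exact ofType_congr (e.prodCongr f) (prodAut_congr e he f hf)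

end

lemma mk_one_eq : ConjClasses.mk (1 : GLInf K) = ofType (LinearEquiv.refl K PUnit.{1}) := by
  symm
  apply ofType_eq_mk
  refine ⟨0, fun x y _ => Subsingleton.elim x y, ?_, fun x => ?_⟩
  · have : D ((1 : GLInf K) : V K ≃ₗ[K] V K) = 0 := by
      ext v i
      simp [D_apply]
    rw [this, LinearMap.range_zero, LinearMap.range_zero]
  · simp

noncomputable instance : Add (Cls K) := ⟨fun C D => dsum C D⟩

noncomputable instance : Zero (Cls K) := ⟨ConjClasses.mk (1 : GLInf K)⟩

noncomputable instance : AddCommMonoid (Cls K) where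
  nsmul := nsmulRec
  add_assoc C D E := by
    change dsum (dsum C D) E = dsum C (dsum D E)
    have hC := ofType_cA (K := K) C
    have hD := ofType_cA (K := K) D
    have hE := ofType_cA (K := K) E
    rw [← hC, ← hD, ← hE, dsum_ofType, dsum_ofType, dsum_ofType, dsum_ofType]
    exact ofType_congr (LinearEquiv.prodAssoc K _ _ _) (fun x => rfl)
  zero_add C := by
    change dsum (ConjClasses.mk (1 : GLInf K)) C = C
    have hC := ofType_cA (K := K) C
    conv_lhs => rw [← hC]
    rw [mk_one_eq, dsum_ofType]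
    refine Eq.trans ?_ hC
    exact ofType_congr (LinearEquiv.uniqueProd) (fun x => rfl)
  add_zero C := by
    change dsum C (ConjClasses.mk (1 : GLInf K)) = C
    have hC := ofType_cA (K := K) C
    conv_lhs => rw [← hC]
    rw [mk_one_eq, dsum_ofType]
    refine Eq.trans ?_ hC
    exact ofType_congr (LinearEquiv.prodUnique) (fun x => rfl)
  add_comm C D := by
    change dsum C D = dsum D C
    exact ofType_congr (LinearEquiv.prodComm K _ _) (fun x => rfl)

lemma cls_add (C D : Cls K) : C + D = dsum C D := rfl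

lemma cls_zero : (0 : Cls K) = ConjClasses.mk (1 : GLInf K) := rfl

/-- the class of a type, as an element of the monoid -/
noncomputable def cls {M : Type} [AddCommGroup M] [Module K M] [FiniteDimensional K M]
    (A : M ≃ₗ[K] M) : Cls K := ofType A

lemma cls_prod {M : Type} [AddCommGroup M] [Module K M] [FiniteDimensional K M]
    {N : Type} [AddCommGroup N] [Module K N] [FiniteDimensional K N] (A : M ≃ₗ[K] M)
    (B : N ≃ₗ[K] N) : cls (prodAut A B) = cls A + cls B := (dsum_ofType A B).symm

lemma cls_subsingleton {M : Type} [AddCommGroup M] [Module K M] [FiniteDimensional K M]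
    [Subsingleton M] (A : M ≃ₗ[K] M) : cls A = 0 := by
  rw [cls_zero, mk_one_eq]
  exact ofType_congr (LinearEquiv.ofSubsingleton M PUnit.{1}) (fun x => rfl)

/-- The direct product of automorphisms. -/
def piAut {ι : Type} {M : ι → Type} [∀ i, AddCommGroup (M i)] [∀ i, Module K (M i)]
    (A : ∀ i, M i ≃ₗ[K] M i) : (∀ i, M i) ≃ₗ[K] (∀ i, M i) :=
  LinearEquiv.piCongrRight A

@[simp] lemma piAut_apply {ι : Type} {M : ι → Type} [∀ i, AddCommGroup (M i)]
    [∀ i, Module K (M i)] (A : ∀ i, M i ≃ₗ[K] M i) (x : ∀ i, M i) (i : ι) :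
    piAut A x i = A i (x i) := rfl

theorem cls_pi (ι : Type) [Fintype ι] : ∀ (M : ι → Type) [∀ i, AddCommGroup (M i)]
    [∀ i, Module K (M i)] [∀ i, FiniteDimensional K (M i)] (A : ∀ i, M i ≃ₗ[K] M i),
    cls (piAut A) = ∑ i, cls (A i) := by
  refine Fintype.induction_empty_option (P := fun ι _ => ∀ (M : ι → Type)
    [∀ i, AddCommGroup (M i)] [∀ i, Module K (M i)] [∀ i, FiniteDimensional K (M i)]
    (A : ∀ i, M i ≃ₗ[K] M i), cls (piAut A) = ∑ i, cls (A i)) ?_ ?_ ?_ ι
  · intro α β _ e ih M _ _ _ A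
    let _ := Fintype.ofEquiv β e.symm
    have key : ∀ (y : ∀ a, M (e a)) (a : α), (LinearEquiv.piCongrLeft K M e) y (e a) = y a :=
      fun y a => Equiv.piCongrLeft_apply_apply M e y a
    have h1 := ih (fun a => M (e a)) (fun a => A (e a))
    have h2 : ∑ i : β, cls (A i) = ∑ a : α, cls (A (e a)) :=
      (Fintype.sum_equiv e _ _ (fun _ => rfl)).symm
    rw [h2]
    refine Eq.trans ?_ (h1.trans ?_)
    · symm
      exact ofType_congr (LinearEquiv.piCongrLeft K M e) (fun x => by
        ext b
        obtain ⟨a, rfl⟩ := e.surjective b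
        rw [key, piAut_apply, piAut_apply, key])
    · apply Finset.sum_congr _ (fun _ _ => rfl)
      ext; simp
  · intro M _ _ _ A
    rw [Finset.univ_eq_empty, Finset.sum_empty]
    exact cls_subsingleton _
  · intro α _ ih M _ _ _ A
    rw [Fintype.sum_option, ← ih (fun a => M (some a)) (fun a => A (some a)), ← cls_prod]
    exact ofType_congr (LinearEquiv.piOptionEquivProd K) (fun x => rfl)

end Pool.Agent.Lib.MP_02a407_al
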