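import Pool.Agent.Lib.MP_02a407_al.Monoid

/-!
# Cyclic types and single cycle classes
-/

namespace Pool.Agent.Lib.MP_02a407_al

open Module Polynomial

variable {K : Type} [Field K]

lemma isUnit_root {P : K[X]} (h : IsCoprime X P) : IsUnit (AdjoinRoot.root P) := by
  obtain ⟨a, b, hab⟩ := h
  refine IsUnit.of_mul_eq_one (AdjoinRoot.mk P a) ?_
  have := congrArg (AdjoinRoot.mk P) hab
  rw [map_add, map_mul, map_mul, AdjoinRoot.mk_self, mul_zero, add_zero, AdjoinRoot.mk_X,
    map_one] at this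
  rw [mul_comm]
  exact this

/-- Multiplication by the class of `X` on `K[X]/(P)`, for `P` prime to `X`. -/
noncomputable def rootAut (P : K[X]) (h : IsCoprime X P) : AdjoinRoot P ≃ₗ[K] AdjoinRoot P :=
  LinearEquiv.ofBijective (LinearMap.mulLeft K (AdjoinRoot.root P))
    ⟨fun _ _ hab => (isUnit_root h).mul_left_cancel hab, fun b => by
      obtain ⟨u, hu⟩ := isUnit_root h
      refine ⟨(↑u⁻¹ : AdjoinRoot P) * b, ?_⟩
      rw [LinearMap.mulLeft_apply, ← hu, Units.mul_inv_cancel_left]⟩

@[simp] lemma rootAut_apply (P : K[X]) (h : IsCoprime X P) (x : AdjoinRoot P) :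
    rootAut P h x = AdjoinRoot.root P * x := rfl

lemma finiteDimensional_adjoinRoot {P : K[X]} (h : P ≠ 0) : FiniteDimensional K (AdjoinRoot P) :=
  (AdjoinRoot.powerBasis h).finite

lemma finrank_adjoinRoot {P : K[X]} (h : P ≠ 0) : finrank K (AdjoinRoot P) = P.natDegree := by
  rw [(AdjoinRoot.powerBasis h).finrank, AdjoinRoot.powerBasis_dim]

/-- The map `K[X]/(P) → K[X]/(P')`, `h ↦ Q h`, when `P' ∣ Q P`. -/
noncomputable def mulMap (P P' Q : K[X]) (h : P' ∣ Q * P) : AdjoinRoot P →ₗ[K] AdjoinRoot P' :=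
  (Submodule.mapQ (Ideal.span {P}) (Ideal.span {P'})
    (LinearMap.mulLeft K[X] Q) (by
      rw [Submodule.span_le]
      rintro _ rfl
      rw [SetLike.mem_coe, Submodule.mem_comap, LinearMap.mulLeft_apply,
        Ideal.mem_span_singleton]
      exact h)).restrictScalars K

lemma mulMap_mk (P P' Q : K[X]) (h : P' ∣ Q * P) (a : K[X]) :
    mulMap P P' Q h (AdjoinRoot.mk P a) = AdjoinRoot.mk P' (Q * a) := rfl

lemma mulMap_root (P P' Q : K[X]) (h : P' ∣ Q * P) (x : AdjoinRoot P) :
    mulMap P P' Q h (AdjoinRoot.root P * x) = AdjoinRoot.root P' * mulMap P P' Q h x := by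
  obtain ⟨a, rfl⟩ := AdjoinRoot.mk_surjective x
  rw [← AdjoinRoot.mk_X, ← map_mul, mulMap_mk, mulMap_mk, ← AdjoinRoot.mk_X, ← map_mul]
  congr 1; ring

lemma mulMap_injective (P P' Q : K[X]) (h : P' ∣ Q * P) (h' : ∀ a, P' ∣ Q * a → P ∣ a) :
    Function.Injective (mulMap P P' Q h) := by
  rw [← LinearMap.ker_eq_bot, LinearMap.ker_eq_bot']
  intro x hx
  obtain ⟨a, rfl⟩ := AdjoinRoot.mk_surjective x
  rw [mulMap_mk, AdjoinRoot.mk_eq_zero] at hx
  rw [AdjoinRoot.mk_eq_zero]
  exact h' a hx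

lemma range_mulMap (P P' Q : K[X]) (h : P' ∣ Q * P) :
    LinearMap.range (mulMap P P' Q h) = LinearMap.range (LinearMap.mulLeft K
      (AdjoinRoot.mk P' Q)) := by
  apply le_antisymm
  · rintro _ ⟨x, rfl⟩
    obtain ⟨a, rfl⟩ := AdjoinRoot.mk_surjective x
    exact ⟨AdjoinRoot.mk P' a, by rw [mulMap_mk, map_mul, LinearMap.mulLeft_apply]⟩
  · rintro _ ⟨x, rfl⟩
    obtain ⟨a, rfl⟩ := AdjoinRoot.mk_surjective x
    exact ⟨AdjoinRoot.mk P a, by rw [mulMap_mk, map_mul, LinearMap.mulLeft_apply]⟩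

lemma cycPoly_monic (s : CycleIndex K) : (cycPoly s).Monic := by
  rw [cycPoly]
  split_ifs
  · exact s.monic.pow _
  · exact s.monic.pow _

lemma CycleIndex.coprime_X (s : CycleIndex K) : IsCoprime X s.f := by
  rw [Irreducible.coprime_iff_not_dvd irreducible_X]
  intro h
  apply s.ne_X
  have := (irreducible_X (R := K)).associated_of_dvd s.irred h
  exact (eq_of_monic_of_associated (monic_X (R := K)) s.monic this).symm

lemma CycleIndex.coprime_X_pow (s : CycleIndex K) (n : ℕ) : IsCoprime X (s.f ^ n) :=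
  s.coprime_X.pow_right

lemma cycPoly_coprime (s : CycleIndex K) : IsCoprime X (cycPoly s) := by
  rw [cycPoly]
  split_ifs
  · exact s.coprime_X_pow _
  · exact s.coprime_X_pow _

/-- The matrix of the multiplication by `X` on `K[X]/(P)`, in the basis `1, X, X ^ 2, ...`, as an
automorphism of `K ^ n`, `n = deg P`. -/
noncomputable def companion (P : K[X]) (hP : P.Monic) (h : IsCoprime X P) :
    (Fin P.natDegree → K) ≃ₗ[K] (Fin P.natDegree → K) :=
  ((AdjoinRoot.powerBasis' hP).basis.equivFun.symm.trans (rootAut P h)).trans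
    (AdjoinRoot.powerBasis' hP).basis.equivFun

/-- The single cycle class `(r)_f` of `GL_∞(K)`. -/
noncomputable def cycleClass (s : CycleIndex K) : ConjClasses (GLInf K) :=
  ConjClasses.mk (block (cycPoly s).natDegree
    (companion (cycPoly s) (cycPoly_monic s) (cycPoly_coprime s)))

lemma hasType_block {n : ℕ} {M N : Type} [AddCommGroup M] [Module K M] [AddCommGroup N]
    [Module K N] (A : M ≃ₗ[K] M) (e : M ≃ₗ[K] (Fin n → K)) (B : N ≃ₗ[K] N) (ψ : N →ₗ[K] M)
    (h1 : Function.Injective ψ) (h2 : LinearMap.range ψ = LinearMap.range (D A))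
    (h3 : ∀ x, ψ (B x) = A (ψ x)) :
    HasType B (blockMap n ((e.symm.trans A).trans e)) := by
  refine ⟨toV 0 n ∘ₗ e.toLinearMap ∘ₗ ψ, (toV_injective 0 n).comp (e.injective.comp h1), ?_, ?_⟩
  · rw [blockMap, D_mkAut, LinearMap.range_comp, LinearMap.range_comp, h2]
    have hpr : Function.Surjective (pr (K := K) 0 n) := fun f => ⟨toV 0 n f, pr_toV 0 n f⟩
    rw [LinearMap.range_comp, LinearMap.range_comp, LinearMap.range_eq_top.2 hpr,
      Submodule.map_top]
    congr 1
    apply le_antisymm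
    · rintro _ ⟨_, ⟨x, rfl⟩, rfl⟩
      refine ⟨e x, ?_⟩
      simp [D_apply]
    · rintro _ ⟨y, rfl⟩
      refine ⟨D A (e.symm y), ⟨_, rfl⟩, ?_⟩
      simp [D_apply]
  · intro x
    simp only [LinearMap.comp_apply, LinearEquiv.coe_coe, h3]
    rw [blockMap_apply, pr_toV, ← map_add]
    congr 1
    simp

instance fd_pow (s : CycleIndex K) (n : ℕ) : FiniteDimensional K (AdjoinRoot (s.f ^ n)) :=
  finiteDimensional_adjoinRoot (s.monic.pow n).ne_zero

/-- The type of the single cycle class `(r)_f` is `K[X]/(f ^ r)`. -/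
theorem cycleClass_eq (s : CycleIndex K) :
    cycleClass s = ofType (rootAut (s.f ^ s.r) (s.coprime_X_pow _)) := by
  symm
  apply ofType_eq_mk
  have hdvd : cycPoly s ∣ (X - 1) * s.f ^ s.r := by
    rw [cycPoly]
    split_ifs with h
    · rw [← h, pow_succ, mul_comm]
    · exact Dvd.intro_left _ rfl
  have hinj : ∀ a, cycPoly s ∣ (X - 1) * a → s.f ^ s.r ∣ a := by
    intro a ha
    rw [cycPoly] at ha
    split_ifs at ha with h
    · rw [← h, pow_succ'] at ha
      exact (mul_dvd_mul_iff_left s.irred.ne_zero).1 ha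
    · have hcop : IsCoprime (s.f ^ s.r) (X - 1) := by
        apply IsCoprime.pow_left
        rw [Irreducible.coprime_iff_not_dvd s.irred]
        intro hd
        apply h
        have hX : Irreducible (X - 1 : K[X]) := by
          have := irreducible_X_sub_C (1 : K)
          rwa [map_one] at this
        have hm : (X - 1 : K[X]).Monic := by
          have := monic_X_sub_C (1 : K)
          rwa [map_one] at this
        exact eq_of_monic_of_associated s.monic hm (s.irred.associated_of_dvd hX hd)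
      exact hcop.dvd_of_dvd_mul_left ha
  refine hasType_block (rootAut (cycPoly s) (cycPoly_coprime s)) _ _
    (mulMap (s.f ^ s.r) (cycPoly s) (X - 1) hdvd) (mulMap_injective _ _ _ _ hinj) ?_ ?_
  · rw [range_mulMap]
    congr 1
    ext1 x
    rw [LinearMap.mulLeft_apply, D_apply, rootAut_apply, map_sub, AdjoinRoot.mk_X, map_one,
      sub_mul, one_mul]
  · intro x
    rw [rootAut_apply, rootAut_apply, mulMap_root]

end Pool.Agent.Lib.MP_02a407_al
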