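import Pool.Agent.Lib.MP_02a407_al.Classes

/-!
# The stable center ring
-/

namespace Pool.Agent.Lib.MP_02a407_al

open Module

variable {K : Type} [Field K]

/-- A chosen element of a conjugacy class. -/
noncomputable def rep (C : ConjClasses (GLInf K)) : GLInf K := (ConjClasses.exists_rep C).choose

@[simp] lemma mk_rep (C : ConjClasses (GLInf K)) : ConjClasses.mk (rep C) = C :=
  (ConjClasses.exists_rep C).choose_spec

/-- The reflection length of a conjugacy class. -/
noncomputable def clen (C : ConjClasses (GLInf K)) : ℕ := len (rep C)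

lemma isConj_out (g : GLInf K) : IsConj (rep (ConjClasses.mk g)) g := by
  rw [← ConjClasses.mk_eq_mk_iff_isConj, mk_rep]

@[simp] lemma clen_mk (g : GLInf K) : clen (ConjClasses.mk g) = len g :=
  len_eq_of_isConj (isConj_out g)

lemma len_of_mk {g : GLInf K} {C : ConjClasses (GLInf K)} (h : ConjClasses.mk g = C) :
    len g = clen C := by rw [← h, clen_mk]

/-- The number of pairs `(c, d)` with `c ∈ C`, `d ∈ D` and `c * d = e`, where `e` is a fixed
element of `E`. -/
noncomputable def structConst (C D E : ConjClasses (GLInf K)) : ℕ :=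
  Nat.card {p : GLInf K × GLInf K //
    ConjClasses.mk p.1 = C ∧ ConjClasses.mk p.2 = D ∧ p.1 * p.2 = rep E}

/-- The stable center as an additive group: the free `ℤ`-module on the conjugacy classes of
`GL_∞(K)`. -/
def StableCenter (K : Type) [Field K] : Type := ConjClasses (GLInf K) →₀ ℤ

noncomputable instance : AddCommGroup (StableCenter K) :=
  inferInstanceAs (AddCommGroup (ConjClasses (GLInf K) →₀ ℤ))

/-- The basis element `K_C` of the stable center. -/
noncomputable def classElt (C : ConjClasses (GLInf K)) : StableCenter K := Finsupp.single C 1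

lemma exists_fin_model {M : Type} [AddCommGroup M] [Module K M] [FiniteDimensional K M]
    (A : M ≃ₗ[K] M) (n : ℕ) (h : finrank K M = n) :
    ∃ B : (Fin n → K) ≃ₗ[K] (Fin n → K), ∃ e : (Fin n → K) ≃ₗ[K] M, ∀ x, e (B x) = A (e x) := by
  subst h
  let e : (Fin (finrank K M) → K) ≃ₗ[K] M := (finBasis K M).equivFun.symm
  refine ⟨(e.trans A).trans e.symm, e, fun x => ?_⟩
  simp only [LinearEquiv.trans_apply, LinearEquiv.apply_symm_apply]

lemma exists_type_fin' (g : GLInf K) (m : ℕ) (h : len g = m) :
    ∃ A : (Fin m → K) ≃ₗ[K] (Fin m → K), HasType A (g : V K ≃ₗ[K] V K) := by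
  have h1 := hasType_restr (g : V K ≃ₗ[K] V K)
  have h2 : finrank K (LinearMap.range (D (g : V K ≃ₗ[K] V K))) = m := h
  obtain ⟨B, e, he⟩ := exists_fin_model (K := K) (M := LinearMap.range (D (g : V K ≃ₗ[K] V K)))
    (restr (g : V K ≃ₗ[K] V K)) m (by rw [← h2])
  exact ⟨B, h1.of_iso e he⟩

lemma finite_classes [Finite K] (m : ℕ) :
    {E : ConjClasses (GLInf K) | clen E = m}.Finite := by
  have hfin : Finite ((Fin m → K) ≃ₗ[K] (Fin m → K)) :=
    Finite.of_injective (fun u : (Fin m → K) ≃ₗ[K] (Fin m → K) => (u : (Fin m → K) → (Fin m → K)))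
      DFunLike.coe_injective
  have hex : ∀ E : {E : ConjClasses (GLInf K) | clen E = m},
      ∃ A : (Fin m → K) ≃ₗ[K] (Fin m → K),
        HasType A ((rep E.1 : GLInf K) : V K ≃ₗ[K] V K) := by
    rintro ⟨E, hE⟩
    exact exists_type_fin' (rep E) m hE
  choose F hF using hex
  have hinj : Function.Injective F := by
    intro E E' h
    have h1 := hF E
    rw [h] at h1
    have h2 := isConj_of_type h1 (hF E')
    apply Subtype.ext
    rw [← mk_rep E.1, ← mk_rep E'.1]
    exact ConjClasses.mk_eq_mk_iff_isConj.2 h2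
  have := Finite.of_injective F hinj
  exact Set.toFinite _

/-- The product `K_C K_D = ∑_{ℓ(E) = ℓ(C) + ℓ(D)} a^E_{CD} K_E`. -/
noncomputable def basisMul [Finite K] (C D : ConjClasses (GLInf K)) : StableCenter K :=
  Finsupp.onFinset (finite_classes (clen C + clen D)).toFinset
    (fun E => open Classical in
      if clen E = clen C + clen D then (structConst C D E : ℤ) else 0)
    (fun E hE => by
      rw [Set.Finite.mem_toFinset]
      by_contra h
      exact hE (if_neg h))

noncomputable instance [Finite K] : Mul (StableCenter K) :=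
  ⟨fun x y => Finsupp.sum x fun C a => Finsupp.sum y fun D b => (a * b) • basisMul C D⟩

noncomputable instance : One (StableCenter K) := ⟨classElt (ConjClasses.mk 1)⟩

/-- the coefficients of `x` -/
noncomputable def coeffs (x : StableCenter K) : ConjClasses (GLInf K) →₀ ℤ := x

/-- the class function associated to `x` -/
noncomputable def ev (x : StableCenter K) (g : GLInf K) : ℤ := coeffs x (ConjClasses.mk g)

lemma coeffs_sum {ι : Type} (s : Finset ι) (f : ι → StableCenter K)
    (C : ConjClasses (GLInf K)) : coeffs (∑ i ∈ s, f i) C = ∑ i ∈ s, coeffs (f i) C :=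
  Finsupp.finsetSum_apply s (fun i => coeffs (f i)) C

lemma ev_injective : Function.Injective (ev (K := K)) := by
  intro x y h
  apply Finsupp.ext
  intro C
  obtain ⟨g, rfl⟩ := ConjClasses.mk_surjective C
  exact congrFun h g

lemma ev_add (x y : StableCenter K) : ev (x + y) = ev x + ev y := rfl

section conv

variable [Finite K]

/-- additive factorizations as a finite set -/
noncomputable def facts (e : GLInf K) : Finset (GLInf K × GLInf K) := (finite_Fact e).toFinset

lemma mem_facts {e : GLInf K} {p : GLInf K × GLInf K} :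
    p ∈ facts e ↔ p.1 * p.2 = e ∧ len p.1 + len p.2 = len e := by
  rw [facts, Set.Finite.mem_toFinset]; rfl

/-- graded convolution -/
noncomputable def conv (f h : GLInf K → ℤ) (e : GLInf K) : ℤ :=
  ∑ p ∈ facts e, f p.1 * h p.2

lemma conv_add_left (f f' h : GLInf K → ℤ) : conv (f + f') h = conv f h + conv f' h := by
  ext e
  simp only [conv, Pi.add_apply, add_mul, Finset.sum_add_distrib]

lemma conv_add_right (f h h' : GLInf K → ℤ) : conv f (h + h') = conv f h + conv f h' := by
  ext e
  simp only [conv, Pi.add_apply, mul_add, Finset.sum_add_distrib]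

lemma conv_assoc (f h k : GLInf K → ℤ) : conv (conv f h) k = conv f (conv h k) := by
  ext e
  simp only [conv, Finset.sum_mul, Finset.mul_sum]
  rw [Finset.sum_sigma', Finset.sum_sigma']
  refine Finset.sum_bij' (fun q _ => ⟨(q.2.1, q.2.2 * q.1.2), (q.2.2, q.1.2)⟩)
    (fun q _ => ⟨(q.1.1 * q.2.1, q.2.2), (q.1.1, q.2.1)⟩) ?_ ?_ ?_ ?_ ?_
  · rintro ⟨⟨x, y⟩, ⟨c, d⟩⟩ h
    simp only [Finset.mem_sigma, mem_facts] at h ⊢
    obtain ⟨⟨h1, h2⟩, h3, h4⟩ := h
    subst h3
    have i1 := len_mul_le d y
    have i2 := len_mul_le c (d * y)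
    rw [← mul_assoc, h1] at i2
    refine ⟨⟨by rw [← mul_assoc, h1], by omega⟩, trivial, by omega⟩
  · rintro ⟨⟨x, y⟩, ⟨c, d⟩⟩ h
    simp only [Finset.mem_sigma, mem_facts] at h ⊢
    obtain ⟨⟨h1, h2⟩, h3, h4⟩ := h
    subst h3
    have i1 := len_mul_le x c
    have i2 := len_mul_le (x * c) d
    rw [mul_assoc, h1] at i2
    refine ⟨⟨by rw [mul_assoc, h1], by omega⟩, trivial, by omega⟩
  · rintro ⟨⟨x, y⟩, ⟨c, d⟩⟩ h
    simp only [Finset.mem_sigma, mem_facts] at h
    obtain ⟨⟨h1, h2⟩, h3, h4⟩ := h
    subst h3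
    rfl
  · rintro ⟨⟨x, y⟩, ⟨c, d⟩⟩ h
    simp only [Finset.mem_sigma, mem_facts] at h
    obtain ⟨⟨h1, h2⟩, h3, h4⟩ := h
    subst h3
    rfl
  · rintro ⟨⟨x, y⟩, ⟨c, d⟩⟩ h
    simp only
    ring

lemma conv_comm {f h : GLInf K → ℤ} (hh : ∀ g g', IsConj g g' → h g = h g') :
    conv f h = conv h f := by
  ext e
  simp only [conv]
  refine Finset.sum_bij' (fun p _ => (p.1 * p.2 * p.1⁻¹, p.1))
    (fun p _ => (p.2, p.2⁻¹ * p.1 * p.2)) ?_ ?_ ?_ ?_ ?_
  · rintro ⟨c, d⟩ h
    rw [mem_facts] at h ⊢
    obtain ⟨h1, h2⟩ := h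
    simp only at h1 h2 ⊢
    refine ⟨by rw [inv_mul_cancel_right, h1], ?_⟩
    rw [len_conj]; omega
  · rintro ⟨c, d⟩ h
    rw [mem_facts] at h ⊢
    obtain ⟨h1, h2⟩ := h
    simp only at h1 h2 ⊢
    refine ⟨by rw [← h1]; group, ?_⟩
    have := len_conj d⁻¹ c
    rw [inv_inv] at this
    rw [this]; omega
  · rintro ⟨c, d⟩ h
    simp only
    rw [Prod.mk.injEq]
    exact ⟨rfl, by group⟩
  · rintro ⟨c, d⟩ h
    simp only
    rw [Prod.mk.injEq]
    exact ⟨by group, rfl⟩
  · rintro ⟨c, d⟩ h
    simp only
    rw [mul_comm, hh d (c * d * c⁻¹) (isConj_iff.2 ⟨c, rfl⟩)]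

omit [Finite K] in
lemma ev_one (g : GLInf K) : ev (1 : StableCenter K) g = open Classical in if g = 1 then 1 else 0 := by
  classical
  change (Finsupp.single (ConjClasses.mk (1 : GLInf K)) (1 : ℤ)) (ConjClasses.mk g) = _
  rw [Finsupp.single_apply]
  by_cases h : g = 1
  · subst h; simp
  · rw [if_neg h, if_neg]
    intro h'
    rw [ConjClasses.mk_eq_mk_iff_isConj, isConj_one_right] at h'
    exact h h'

lemma conv_one (f : GLInf K → ℤ) : conv (ev 1) f = f := by
  classical
  ext e
  simp only [conv]
  rw [Finset.sum_eq_single (1, e)]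
  · rw [ev_one, if_pos rfl, one_mul]
  · rintro ⟨c, d⟩ h hne
    rw [mem_facts] at h
    simp only at h
    rw [ev_one]
    simp only
    rw [if_neg, zero_mul]
    rintro rfl
    apply hne
    rw [one_mul] at h
    rw [h.1]
  · intro h
    exfalso
    apply h
    rw [mem_facts]
    exact ⟨one_mul _, by simp [len_one]⟩

omit [Finite K] in
open Classical in
lemma ev_classElt (C : ConjClasses (GLInf K)) (g : GLInf K) :
    ev (classElt C) g = if ConjClasses.mk g = C then 1 else 0 := by
  change (Finsupp.single C (1 : ℤ)) (ConjClasses.mk g) = _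
  rw [Finsupp.single_apply]
  by_cases h : ConjClasses.mk g = C
  · rw [if_pos h, if_pos h.symm]
  · rw [if_neg h, if_neg (fun h' => h h'.symm)]

lemma ev_basisMul (C D : ConjClasses (GLInf K)) (g : GLInf K) :
    ev (basisMul C D) g = conv (ev (classElt C)) (ev (classElt D)) g := by
  classical
  change (if clen (ConjClasses.mk g) = clen C + clen D then
    (structConst C D (ConjClasses.mk g) : ℤ) else 0) = _
  have hR : conv (ev (classElt C)) (ev (classElt D)) g =
      (((facts g).filter (fun p => ConjClasses.mk p.1 = C ∧ ConjClasses.mk p.2 = D)).card : ℤ) := by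
    rw [conv, Finset.card_filter]
    push_cast
    apply Finset.sum_congr rfl
    intro p _
    rw [ev_classElt, ev_classElt]
    by_cases h1 : ConjClasses.mk p.1 = C <;> by_cases h2 : ConjClasses.mk p.2 = D <;> simp [h1, h2]
  rw [hR]
  split_ifs with h
  · congr 1
    rw [clen_mk] at h
    obtain ⟨c, hc⟩ := isConj_iff.1 (isConj_out g)
    have hc' : rep (ConjClasses.mk g) = c⁻¹ * g * c := by
      have h0 : c⁻¹ * (c * rep (ConjClasses.mk g) * c⁻¹) * c =
        rep (ConjClasses.mk g) := by group
      rw [hc] at h0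
      exact h0.symm
    rw [structConst]
    have hcard : ((facts g).filter (fun p => ConjClasses.mk p.1 = C ∧ ConjClasses.mk p.2 = D)).card
      = Nat.card {p : GLInf K × GLInf K // p ∈ (facts g).filter
        (fun p => ConjClasses.mk p.1 = C ∧ ConjClasses.mk p.2 = D)} := by
      rw [Nat.card_eq_fintype_card, Fintype.card_coe]
    rw [hcard]
    have hconj : ∀ (a b : GLInf K), ConjClasses.mk (b * a * b⁻¹) = ConjClasses.mk a := by
      intro a b
      rw [ConjClasses.mk_eq_mk_iff_isConj]
      exact (isConj_iff.2 ⟨b, rfl⟩).symm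
    apply Nat.card_congr
    exact
      { toFun := fun p => ⟨(c * p.1.1 * c⁻¹, c * p.1.2 * c⁻¹), by
          obtain ⟨h1, h2, h3⟩ := p.2
          rw [Finset.mem_filter, mem_facts]
          simp only
          refine ⟨⟨?_, ?_⟩, ?_, ?_⟩
          · have : c * p.1.1 * c⁻¹ * (c * p.1.2 * c⁻¹) = c * (p.1.1 * p.1.2) * c⁻¹ := by group
            rw [this, h3, hc]
          · rw [len_conj, len_conj, h, len_of_mk h1, len_of_mk h2]
          · rw [hconj, h1]
          · rw [hconj, h2]⟩
        invFun := fun p => ⟨(c⁻¹ * p.1.1 * c⁻¹⁻¹, c⁻¹ * p.1.2 * c⁻¹⁻¹), by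
          have hp := p.2
          rw [Finset.mem_filter, mem_facts] at hp
          obtain ⟨⟨h1, h2⟩, h3, h4⟩ := hp
          refine ⟨?_, ?_, ?_⟩
          · rw [hconj, h3]
          · rw [hconj, h4]
          · have : c⁻¹ * p.1.1 * c⁻¹⁻¹ * (c⁻¹ * p.1.2 * c⁻¹⁻¹) = c⁻¹ * (p.1.1 * p.1.2) * c := by
              group
            simp only
            rw [this, h1, hc']⟩
        left_inv := fun p => by
          apply Subtype.ext
          simp only
          apply Prod.ext
          · simp only; group
          · simp only; group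
        right_inv := fun p => by
          apply Subtype.ext
          simp only
          apply Prod.ext
          · simp only; group
          · simp only; group }
  · symm
    rw [Nat.cast_eq_zero, Finset.card_eq_zero, Finset.filter_eq_empty_iff]
    rintro p hp ⟨h1, h2⟩
    rw [mem_facts] at hp
    apply h
    rw [clen_mk, ← h1, ← h2, clen_mk, clen_mk, hp.2]

lemma ev_mul (x y : StableCenter K) : ev (x * y) = conv (ev x) (ev y) := by
  classical
  ext g
  have hx : ∀ (z : StableCenter K) (g : GLInf K),
      ev z g = ∑ C ∈ (coeffs z).support, coeffs z C * ev (classElt C) g := by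
    intro z g
    simp only [ev_classElt, mul_ite, mul_one, mul_zero]
    rw [Finset.sum_ite_eq]
    by_cases h : ConjClasses.mk g ∈ (coeffs z).support
    · rw [if_pos h]; rfl
    · rw [if_neg h]
      exact Finsupp.notMem_support_iff.1 h
  have hL : ev (x * y) g = ∑ C ∈ (coeffs x).support, ∑ D ∈ (coeffs y).support,
      (coeffs x C * coeffs y D) * ev (basisMul C D) g := by
    change coeffs (∑ C ∈ (coeffs x).support, ∑ D ∈ (coeffs y).support,
      (coeffs x C * coeffs y D) • basisMul C D) (ConjClasses.mk g) = _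
    rw [coeffs_sum]
    apply Finset.sum_congr rfl
    intro C _
    rw [coeffs_sum]
    apply Finset.sum_congr rfl
    intro D _
    exact Finsupp.smul_apply _ _ _
  rw [hL]
  simp only [ev_basisMul, conv]
  have hR : ∀ p : GLInf K × GLInf K, ev x p.1 * ev y p.2 =
      ∑ C ∈ (coeffs x).support, ∑ D ∈ (coeffs y).support,
        (coeffs x C * coeffs y D) * (ev (classElt C) p.1 * ev (classElt D) p.2) := by
    intro p
    rw [hx x p.1, hx y p.2, Finset.sum_mul_sum]
    apply Finset.sum_congr rfl
    intro C _
    apply Finset.sum_congr rfl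
    intro D _
    ring
  simp only [hR, Finset.mul_sum]
  rw [Finset.sum_comm (s := facts g)]
  apply Finset.sum_congr rfl
  intro C _
  rw [Finset.sum_comm (s := facts g)]

omit [Finite K] in
lemma ev_isConj (x : StableCenter K) (g g' : GLInf K) (h : IsConj g g') : ev x g = ev x g' := by
  rw [ev, ev, ConjClasses.mk_eq_mk_iff_isConj.2 h]

noncomputable instance : CommRing (StableCenter K) :=
  { (inferInstance : AddCommGroup (StableCenter K)) with
    mul := (· * ·)
    one := 1
    left_distrib := fun x y z => by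
      apply ev_injective
      rw [ev_mul, ev_add, conv_add_right, ev_add, ev_mul, ev_mul]
    right_distrib := fun x y z => by
      apply ev_injective
      rw [ev_mul, ev_add, conv_add_left, ev_add, ev_mul, ev_mul]
    zero_mul := fun x => by
      apply ev_injective
      rw [ev_mul]
      ext e
      have : ∀ g, ev (0 : StableCenter K) g = 0 := fun g => rfl
      simp [conv, this]
    mul_zero := fun x => by
      apply ev_injective
      rw [ev_mul]
      ext e
      have : ∀ g, ev (0 : StableCenter K) g = 0 := fun g => rfl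
      simp [conv, this]
    mul_assoc := fun x y z => by
      apply ev_injective
      rw [ev_mul, ev_mul, ev_mul, ev_mul, conv_assoc]
    one_mul := fun x => by
      apply ev_injective
      rw [ev_mul, conv_one]
    mul_one := fun x => by
      apply ev_injective
      rw [ev_mul, conv_comm (ev_isConj 1), conv_one]
    mul_comm := fun x y => by
      apply ev_injective
      rw [ev_mul, ev_mul, conv_comm (ev_isConj y)] }

end conv

end Pool.Agent.Lib.MP_02a407_al
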