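import Pool.Agent.Lib.MP_02a407_al.Invariants

/-!
# Every class is a direct sum of single cycle classes
-/

namespace Pool.Agent.Lib.MP_02a407_al

open Module Polynomial DirectSum

variable {K : Type} [Field K]

lemma ofType_associated {P P' : K[X]} (hP : P ≠ 0) (h : IsCoprime X P) (h' : IsCoprime X P')
    (ha : Associated P P') :
    haveI := finiteDimensional_adjoinRoot hP
    haveI := finiteDimensional_adjoinRoot (ha.ne_zero_iff.1 hP)
    cls (rootAut P h) = cls (rootAut P' h') := by
  have := finiteDimensional_adjoinRoot hP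
  have := finiteDimensional_adjoinRoot (ha.ne_zero_iff.1 hP)
  have d1 : P' ∣ 1 * P := by rw [one_mul]; exact ha.symm.dvd
  have d2 : P ∣ 1 * P' := by rw [one_mul]; exact ha.dvd
  refine ofType_congr (LinearEquiv.ofLinearMap (mulMap P P' 1 d1) (mulMap P' P 1 d2) ?_ ?_) ?_
  · ext x
    obtain ⟨a, rfl⟩ := AdjoinRoot.mk_surjective x
    rw [LinearMap.comp_apply, mulMap_mk, mulMap_mk, one_mul, one_mul, LinearMap.id_apply]
  · ext x
    obtain ⟨a, rfl⟩ := AdjoinRoot.mk_surjective x
    rw [LinearMap.comp_apply, mulMap_mk, mulMap_mk, one_mul, one_mul, LinearMap.id_apply]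
  · intro x
    exact mulMap_root P P' 1 d1 x

open Classical in
lemma cls_rootAut_mem (p : K[X]) (hp : Irreducible p) (e : ℕ) (h : IsCoprime X (p ^ e)) :
    haveI := finiteDimensional_adjoinRoot (pow_ne_zero e hp.ne_zero)
    cls (rootAut (p ^ e) h) ∈ AddMonoidHom.mrange (theta K) := by
  have := finiteDimensional_adjoinRoot (pow_ne_zero e hp.ne_zero)
  rcases Nat.eq_zero_or_pos e with he | he
  · subst he
    have : Subsingleton (AdjoinRoot (p ^ 0)) := by
      refine ⟨fun a b => ?_⟩
      obtain ⟨a, rfl⟩ := AdjoinRoot.mk_surjective a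
      obtain ⟨b, rfl⟩ := AdjoinRoot.mk_surjective b
      rw [AdjoinRoot.mk_eq_mk, pow_zero]
      exact one_dvd _
    rw [cls_subsingleton]
    exact zero_mem _
  · set f := normalize p with hf
    have hass : Associated p f := (normalize_associated p).symm
    have hfi : Irreducible f := (hass.irreducible_iff).1 hp
    have hfm : f.Monic := Polynomial.monic_normalize hp.ne_zero
    have hpX : IsCoprime X p := (IsCoprime.pow_right_iff he).1 h
    have hfX : IsCoprime X f := by
      rw [Irreducible.coprime_iff_not_dvd irreducible_X] at hpX ⊢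
      rwa [← hass.dvd_iff_dvd_right]
    have hne : f ≠ X := by
      rintro heq
      rw [heq] at hfX
      exact irreducible_X.not_isUnit (isCoprime_self.1 hfX)
    let s : CycleIndex K := ⟨f, e, hfm, hfi, hne, he⟩
    refine ⟨Finsupp.single s 1, ?_⟩
    rw [theta_single, one_smul, cyc, cycleClass_eq]
    exact (ofType_associated (pow_ne_zero e hp.ne_zero) h _ (hass.pow_pow)).symm

lemma theta_surjective : Function.Surjective (theta K) := by
  intro C
  change C ∈ AddMonoidHom.mrange (theta K)
  have hC : cls (cA (C : ConjClasses (GLInf K))) = C := ofType_cA C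
  rw [← hC]
  generalize cA (C : ConjClasses (GLInf K)) = A
  -- the polynomial module
  obtain ⟨ι, _, p, hp, e, ⟨E⟩⟩ := Module.equiv_directSum_of_isTorsion (R := K[X])
    (M := AEval' (A : cM C →ₗ[K] cM C))
    (AEval.isTorsion_of_finiteDimensional (K := K) (M := cM C)
      (A := Module.End K (cM C)) (A : cM C →ₗ[K] cM C))
  have hp0 : ∀ i, p i ^ e i ≠ 0 := fun i => pow_ne_zero _ (hp i).ne_zero
  let E1 : AEval' (A : cM C →ₗ[K] cM C) ≃ₗ[K[X]] (∀ i, (K[X] ⧸ (K[X] ∙ p i ^ e i))) :=
    E.trans (DirectSum.linearEquivFunOnFintype K[X] ι _)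
  let E2 : cM C ≃ₗ[K] (∀ i, AdjoinRoot (p i ^ e i)) :=
    (AEval'.of (A : cM C →ₗ[K] cM C)).trans (E1.restrictScalars K)
  have hE2 : ∀ x i, E2 (A x) i = AdjoinRoot.root (p i ^ e i) * E2 x i := by
    intro x i
    have h1 : E2 (A x) = E1 (AEval'.of (A : cM C →ₗ[K] cM C) (A x)) := rfl
    have h2 : E2 x = E1 (AEval'.of (A : cM C →ₗ[K] cM C) x) := rfl
    have h3 : AEval'.of (A : cM C →ₗ[K] cM C) (A x) =
        (X : K[X]) • AEval'.of (A : cM C →ₗ[K] cM C) x := (AEval'.X_smul_of _ _).symm
    rw [h1, h2, h3, map_smul, Pi.smul_apply]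
    generalize E1 (AEval'.of (A : cM C →ₗ[K] cM C) x) i = y
    obtain ⟨a, rfl⟩ := Submodule.Quotient.mk_surjective _ y
    rfl
  have hcop : ∀ i, IsCoprime X (p i ^ e i) := by
    classical
    intro i
    rcases Nat.eq_zero_or_pos (e i) with he | he
    · rw [he, pow_zero]; exact isCoprime_one_right
    · rw [IsCoprime.pow_right_iff he, isCoprime_comm, Irreducible.coprime_iff_not_dvd (hp i)]
      intro hd
      have h0 : E2 (A (E2.symm (Pi.single i (AdjoinRoot.mk _ (p i ^ (e i - 1)))))) = 0 := by
        funext j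
        rw [hE2, LinearEquiv.apply_symm_apply]
        by_cases hj : j = i
        · subst hj
          rw [Pi.single_eq_same, ← AdjoinRoot.mk_X, ← map_mul, Pi.zero_apply,
            AdjoinRoot.mk_eq_zero]
          obtain ⟨c, hc⟩ := hd
          refine ⟨c, ?_⟩
          rw [hc]
          obtain ⟨n, hn⟩ : ∃ n, e j = n + 1 := ⟨e j - 1, by omega⟩
          rw [hn, Nat.add_sub_cancel, pow_succ]
          ring
        · rw [Pi.single_eq_of_ne hj, mul_zero, Pi.zero_apply]
      rw [LinearEquiv.map_eq_zero_iff, LinearEquiv.map_eq_zero_iff,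
        LinearEquiv.map_eq_zero_iff] at h0
      have h1 := congrFun h0 i
      rw [Pi.single_eq_same, Pi.zero_apply, AdjoinRoot.mk_eq_zero,
        pow_dvd_pow_iff (hp i).ne_zero (hp i).not_isUnit] at h1
      omega
  have : ∀ i, FiniteDimensional K (AdjoinRoot (p i ^ e i)) :=
    fun i => finiteDimensional_adjoinRoot (hp0 i)
  have hfin : cls A = cls (piAut (fun i => rootAut (p i ^ e i) (hcop i))) := by
    refine ofType_congr E2 (fun x => ?_)
    funext i
    rw [hE2, piAut_apply, rootAut_apply]
  rw [hfin, cls_pi]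
  exact sum_mem (fun i _ => cls_rootAut_mem (p i) (hp i) (e i) (hcop i))

/-- Every class is in a unique way a direct sum of single cycle classes. -/
noncomputable def thetaEquiv (K : Type) [Field K] : (CycleIndex K →₀ ℕ) ≃+ Cls K :=
  AddEquiv.ofBijective (theta K) ⟨theta_injective, theta_surjective⟩

end Pool.Agent.Lib.MP_02a407_al
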